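import Mathlib

set_option autoImplicit false

/-!
# Lorentzian spaces and groups of isometries: elementary facts
-/

namespace Pool.Agent.H14.LT

open Filter Topology

/-- A finite dimensional Lorentzian space (the form is negative on `e` and positive definite on the
orthogonal complement of `e`) with a group of linear isometries. -/
structure Ctx (V : Type*) [NormedAddCommGroup V] [NormedSpace ℝ V] where
  B : V →ₗ[ℝ] V →ₗ[ℝ] ℝ
  symm : ∀ x y, B x y = B y x
  e : V
  he : B e e < 0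
  pos : ∀ v, B v e = 0 → v ≠ 0 → 0 < B v v
  G : Subgroup (V ≃ₗ[ℝ] V)
  inv : ∀ g ∈ G, ∀ x y, B (g x) (g y) = B x y

variable {V : Type*} [NormedAddCommGroup V] [NormedSpace ℝ V]

namespace Ctx

variable (C : Ctx V)

lemma ne_e {x : V} (hx : x ≠ 0) (h : C.B x x ≤ 0) : C.B x C.e ≠ 0 := fun h0 =>
  absurd (C.pos x h0 hx) (not_lt.2 h)

/-- Orthogonal causal vectors are proportional. -/
lemma causal_dep {x y : V} (hx : C.B x x ≤ 0) (hy : C.B y y ≤ 0) (h : C.B x y = 0) (hx0 : x ≠ 0) :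
    ∃ t : ℝ, y = t • x := by
  have hxe := C.ne_e hx0 hx
  set z := C.B x C.e • y - C.B y C.e • x with hz
  have h1 : C.B z C.e = 0 := by simp [hz]; ring
  have h2 : C.B z z = (C.B x C.e) ^ 2 * C.B y y + (C.B y C.e) ^ 2 * C.B x x := by
    have h3 := C.symm y x
    simp only [hz, map_sub, map_smul, LinearMap.sub_apply, LinearMap.smul_apply, smul_eq_mul]
    rw [h3, h]
    ring
  have h3 : C.B z z ≤ 0 := by
    rw [h2]
    have := mul_nonpos_of_nonneg_of_nonpos (sq_nonneg (C.B x C.e)) hy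
    have := mul_nonpos_of_nonneg_of_nonpos (sq_nonneg (C.B y C.e)) hx
    linarith
  have h4 : z = 0 := by
    by_contra h0
    exact absurd (C.pos z h1 h0) (not_lt.2 h3)
  refine ⟨C.B y C.e / C.B x C.e, ?_⟩
  have h5 : C.B x C.e • y = C.B y C.e • x := sub_eq_zero.1 h4
  rw [div_eq_inv_mul, mul_smul, ← h5, smul_smul, inv_mul_cancel₀ hxe, one_smul]

/-- A causal vector orthogonal to a light-like vector `p` is a multiple of `p`. -/
lemma light_dep {p v : V} (hp : C.B p p = 0) (hp0 : p ≠ 0) (hv : C.B v v ≤ 0)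
    (h : C.B v p = 0) : ∃ t : ℝ, v = t • p :=
  C.causal_dep hp.le hv (by rw [C.symm]; exact h) hp0

lemma pos_pair {p q v : V} (hp : C.B p p = 0) (hpq : C.B p q ≠ 0)
    (h1 : C.B v p = 0) (h2 : C.B v q = 0) (hv : v ≠ 0) : 0 < C.B v v := by
  by_contra hcon
  have hp0 : p ≠ 0 := by rintro rfl; simp at hpq
  obtain ⟨t, rfl⟩ := C.light_dep hp hp0 (not_lt.1 hcon) h1
  simp only [map_smul, LinearMap.smul_apply, smul_eq_mul] at h2
  rcases mul_eq_zero.1 h2 with h | h
  · exact hv (by rw [h, zero_smul])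
  · exact hpq h

lemma nondeg {x : V} (h : ∀ y, C.B x y = 0) : x = 0 := by
  by_contra h0
  have := C.pos x (h _) h0
  rw [h x] at this
  exact lt_irrefl _ this

lemma light_ne {p q : V} (hp : C.B p p = 0) (hp0 : p ≠ 0) (hq : C.B q q = 0)
    (h : ∀ t : ℝ, q ≠ t • p) : C.B p q ≠ 0 := by
  intro h0
  obtain ⟨t, ht⟩ := C.light_dep hp hp0 hq.le (by rw [C.symm]; exact h0)
  exact h t ht

lemma inv_symm {g : V ≃ₗ[ℝ] V} (hg : g ∈ C.G) (x y : V) :
    C.B (g x) y = C.B x (g⁻¹ y) := by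
  have := C.inv g hg x (g⁻¹ y)
  rw [← this]
  congr 1
  exact (LinearEquiv.apply_symm_apply g y).symm

section fin
variable [FiniteDimensional ℝ V]

lemma cont : Continuous fun p : V × V => C.B p.1 p.2 := by
  have : Continuous fun p : V × V => C.B.toContinuousBilinearMap p.1 p.2 := by fun_prop
  exact this

lemma cont' {X : Type*} [TopologicalSpace X] {f g : X → V} (hf : Continuous f)
    (hg : Continuous g) : Continuous fun x => C.B (f x) (g x) :=
  C.cont.comp (hf.prodMk hg)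

lemma tend {X : Type*} {l : Filter X} {f g : X → V} {x y : V} (hf : Tendsto f l (𝓝 x))
    (hg : Tendsto g l (𝓝 y)) : Tendsto (fun a => C.B (f a) (g a)) l (𝓝 (C.B x y)) :=
  (C.cont.tendsto (x, y)).comp (hf.prodMk_nhds hg)

/-- Positive definite forms on subspaces dominate the norm. -/
lemma pd_bound (E : Submodule ℝ V) (hE : ∀ v ∈ E, v ≠ 0 → 0 < C.B v v) :
    ∃ c : ℝ, 0 < c ∧ ∀ v ∈ E, c * ‖v‖ ^ 2 ≤ C.B v v := by
  have hc : IsCompact ((E : Set V) ∩ Metric.sphere 0 1) :=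
    (isCompact_sphere (0 : V) 1).inter_left E.closed_of_finiteDimensional
  rcases ((E : Set V) ∩ Metric.sphere 0 1).eq_empty_or_nonempty with h | h
  · refine ⟨1, one_pos, fun v hv => ?_⟩
    by_cases h0 : v = 0
    · simp [h0]
    · exfalso
      have h1 : (‖v‖⁻¹ • v) ∈ ((E : Set V) ∩ Metric.sphere 0 1) :=
        ⟨E.smul_mem _ hv, by simp [norm_smul, h0]⟩
      rw [h] at h1
      exact h1
  · obtain ⟨u, hu, hmin⟩ := hc.exists_isMinOn h
      ((C.cont' continuous_id continuous_id).continuousOn)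
    have hu0 : u ≠ 0 := by
      rintro rfl
      simpa using hu.2
    refine ⟨C.B u u, hE u hu.1 hu0, fun v hv => ?_⟩
    by_cases h0 : v = 0
    · simp [h0]
    · have h1 : (‖v‖⁻¹ • v) ∈ ((E : Set V) ∩ Metric.sphere 0 1) :=
        ⟨E.smul_mem _ hv, by simp [norm_smul, h0]⟩
      have h2 := hmin h1
      simp only [id, map_smul, LinearMap.smul_apply, smul_eq_mul, Set.mem_setOf_eq] at h2
      have h3 : 0 < ‖v‖ := norm_pos_iff.2 h0
      have h4 : ‖v‖⁻¹ * (‖v‖⁻¹ * C.B v v) = C.B v v / ‖v‖ ^ 2 := by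
        field_simp
      rw [h4, le_div_iff₀ (by positivity)] at h2
      exact h2

lemma quad_bound : ∃ c : ℝ, 0 < c ∧ ∀ x y : V, |C.B x y| ≤ c * ‖x‖ * ‖y‖ := by
  refine ⟨‖C.B.toContinuousBilinearMap‖ + 1, by positivity, fun x y => ?_⟩
  have h := C.B.toContinuousBilinearMap.le_opNorm₂ x y
  rw [LinearMap.toContinuousBilinearMap_apply, Real.norm_eq_abs] at h
  refine h.trans ?_
  have : 0 ≤ ‖x‖ * ‖y‖ := by positivity
  nlinarith

end fin

end Ctx

end Pool.Agent.H14.LT
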