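import Pool.Agent.H14.LT.Orb

set_option autoImplicit false

/-!
# Orbits on the limit cone
-/

namespace Pool.Agent.H14.LT

open Filter Topology

variable {V : Type*} [NormedAddCommGroup V] [NormedSpace ℝ V] [FiniteDimensional ℝ V]

namespace Ctx

variable {C : Ctx V}

/-- One step of a chain on the limit cone. -/
lemma chain (hmove : ∀ x ∈ C.Xi, ∃ k ∈ C.G, C.B (k x) x ≠ 0) {x z c : V} (hx : x ∈ C.L)
    (hz : z ∈ C.L) (hcx : C.B c x ≠ 0) (hcz : C.B c z = C.B c x) (hc : c ∈ C.L)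
    {U U' : Set V} (hU : U ∈ 𝓝 x) (hU' : U' ∈ 𝓝 z) :
    ∃ x' ∈ U, x' ∈ C.L ∧ ∃ k ∈ C.G, k x' ∈ U' := by
  by_cases hxz : C.B x z = 0
  · obtain ⟨t, -, rfl⟩ := C.L_dep hx hz hxz
    have ht : t = 1 := by
      rw [map_smul, smul_eq_mul] at hcz
      have : (t - 1) * C.B c x = 0 := by linarith
      rcases mul_eq_zero.1 this with h | h
      · linarith
      · exact absurd h hcx
    rw [ht, one_smul] at hU'
    exact ⟨x, mem_of_mem_nhds hU, hx, 1, C.G.one_mem, mem_of_mem_nhds hU'⟩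
  · have hcz0 : C.B c z ≠ 0 := by rw [hcz]; exact hcx
    let F : V × V → V := fun w => (C.B c w.1 / C.B c w.2) • w.2
    have hF : ContinuousAt F (x, z) := by
      have c1 : ContinuousAt (fun w : V × V => C.B c w.1) (x, z) :=
        (C.cont' continuous_const continuous_fst).continuousAt
      have c2 : ContinuousAt (fun w : V × V => C.B c w.2) (x, z) :=
        (C.cont' continuous_const continuous_snd).continuousAt
      exact (c1.div c2 hcz0).smul continuousAt_snd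
    have hFv : F (x, z) = z := by
      simp only [F]
      rw [hcz, div_self hcx, one_smul]
    have h1 : ∀ᶠ w : V × V in 𝓝 (x, z), U' ∈ 𝓝 (F w) := by
      have : ∀ᶠ u in 𝓝 (F (x, z)), U' ∈ 𝓝 u := by
        rw [hFv]
        exact eventually_eventually_nhds.2 hU'
      exact hF.eventually this
    have h2 : ∀ᶠ w : V × V in 𝓝 (x, z), C.B c w.1 ≠ 0 :=
      ((C.cont' continuous_const continuous_fst).continuousAt (x := (x, z))).eventually_ne hcx
    have h3 : ∀ᶠ w : V × V in 𝓝 (x, z), C.B c w.2 ≠ 0 :=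
      ((C.cont' continuous_const continuous_snd).continuousAt (x := (x, z))).eventually_ne hcz0
    have h4' : ∀ᶠ u in 𝓝 x, U ∈ 𝓝 u := eventually_eventually_nhds.2 hU
    have h4 : ∀ᶠ w : V × V in 𝓝 (x, z), U ∈ 𝓝 w.1 :=
      (continuous_fst.tendsto (x, z)).eventually h4'
    obtain ⟨W, hW, hWo, hWm⟩ := eventually_nhds_iff.1 (h1.and (h2.and (h3.and h4)))
    obtain ⟨A, A', hAo, hA'o, hqA, hrA', hAA⟩ := isOpen_prod_iff.1 hWo x z hWm
    obtain ⟨g, z', x', a, h, hx', hz'⟩ := dens hmove hx hz hxz (hAo.mem_nhds hqA)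
      (hA'o.mem_nhds hrA')
    obtain ⟨k1, k2, k3, k4⟩ := hW (x', z') (hAA ⟨hx', hz'⟩)
    simp only at k2 k3 k4
    have hxz' := h.yx
    have hβ : C.B c z' / C.B x' z' ≠ 0 := div_ne_zero k3 hxz'
    have t1 := (h.swap.attract c).const_smul ((C.B c z' / C.B x' z')⁻¹)
    rw [smul_smul, inv_mul_cancel₀ hβ, one_smul] at t1
    have t2 := (h.attract c).const_smul ((C.B c z' / C.B x' z')⁻¹)
    have e1 : (C.B c z' / C.B x' z')⁻¹ • (C.B c x' / C.B z' x') • z' = F (x', z') := by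
      simp only [F]
      rw [smul_smul, C.symm z' x']
      congr 1
      field_simp
    rw [e1] at t2
    obtain ⟨N, hN1, hN2⟩ := ((t1.eventually_mem k4).and (t2.eventually_mem k1)).exists
    refine ⟨_, hN1, ?_, g ^ N * g ^ N, C.G.mul_mem (h.powmem N) (h.powmem N), ?_⟩
    · exact C.L_smul (C.L_smul (C.L_map hc (h.swap.powmem N))
        (inv_ne_zero (pow_ne_zero _ h.a0))) (inv_ne_zero hβ)
    · rw [map_smul, map_smul, LinearEquiv.mul_apply]
      have e2 : (g ^ N) ((g⁻¹ ^ N) c) = c := by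
        rw [inv_pow]
        exact LinearEquiv.apply_symm_apply (g ^ N) c
      rw [e2]
      exact hN2

/-- Local spanning. -/
lemma HP.local_span {g : V ≃ₗ[ℝ] V} {x y : V} {a : ℝ} (h : C.HP g x y a) {b : V} (hb : b ∈ C.L)
    (hbx : C.B b x ≠ 0) (hby : C.B b y ≠ 0) {w : V} (hw : w ∈ C.V1)
    (hloc : ∀ᶠ c in 𝓝 x, c ∈ C.L → C.B c w = 0) : w = 0 := by
  let Q : Submodule ℝ V :=
    { carrier := {v | ∀ᶠ N : ℕ in atTop, C.B ((g ^ N) v) w = 0}
      add_mem' := by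
        intro u v hu hv
        filter_upwards [hu, hv] with N h1 h2
        rw [map_add, map_add, LinearMap.add_apply, h1, h2, add_zero]
      zero_mem' := by
        refine Eventually.of_forall fun N => ?_
        simp
      smul_mem' := by
        intro t v hv
        filter_upwards [hv] with N h1
        rw [map_smul, map_smul, LinearMap.smul_apply, h1, smul_zero] }
  have hQ : ∀ v, v ∈ Q ↔ ∀ᶠ N : ℕ in atTop, C.B ((g ^ N) v) w = 0 := fun v => Iff.rfl
  have q1 : ∀ c ∈ C.L, C.B c y ≠ 0 → c ∈ Q := by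
    intro c hc hcy
    rw [hQ]
    have hs : C.B c y / C.B x y ≠ 0 := div_ne_zero hcy h.xy
    have t1 := (h.attract c).const_smul ((C.B c y / C.B x y)⁻¹)
    rw [smul_smul, inv_mul_cancel₀ hs, one_smul] at t1
    filter_upwards [t1.eventually hloc] with N hN
    have h1 := hN (C.L_smul (C.L_smul (C.L_map hc (h.powmem N))
      (inv_ne_zero (pow_ne_zero _ h.a0))) (inv_ne_zero hs))
    simp only [map_smul, LinearMap.smul_apply, smul_eq_mul] at h1
    rcases mul_eq_zero.1 h1 with h2 | h2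
    · exact absurd h2 (inv_ne_zero hs)
    · exact (mul_eq_zero.1 h2).resolve_left (inv_ne_zero (pow_ne_zero _ h.a0))
  have q2 : y ∈ Q := by
    let S : Submodule ℝ V := Submodule.span ℝ {c | c ∈ C.L ∧ C.B c y ≠ 0}
    have hSQ : S ≤ Q := Submodule.span_le.2 fun c hc => q1 c hc.1 hc.2
    apply hSQ
    have t1 := h.swap.attract b
    have hs : C.B b x / C.B y x ≠ 0 := div_ne_zero hbx h.yx
    have h1 : (C.B b x / C.B y x) • y ∈ S := by
      have hcl : IsClosed (S : Set V) := S.closed_of_finiteDimensional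
      refine hcl.mem_of_tendsto t1 (Eventually.of_forall fun N => ?_)
      refine Submodule.subset_span ⟨C.L_smul (C.L_map hb (h.swap.powmem N))
        (inv_ne_zero (pow_ne_zero _ h.a0)), ?_⟩
      have e1 : C.B ((g⁻¹ ^ N) b) y = C.B b ((g ^ N) y) := by
        have := C.inv _ (h.powmem N) ((g⁻¹ ^ N) b) y
        rw [← this, inv_pow]
        congr 2
        exact (LinearEquiv.apply_symm_apply (g ^ N) b)
      rw [map_smul, LinearMap.smul_apply, e1, h.pow_y, map_smul, smul_eq_mul, smul_eq_mul]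
      exact mul_ne_zero (inv_ne_zero (pow_ne_zero _ h.a0))
        (mul_ne_zero (inv_ne_zero (pow_ne_zero _ h.a0)) hby)
    have h2 := S.smul_mem (C.B b x / C.B y x)⁻¹ h1
    rwa [smul_smul, inv_mul_cancel₀ hs, one_smul] at h2
  have q3 : C.V1 ≤ Q := by
    refine Submodule.span_le.2 fun z hz => ?_
    have hzL := C.Xi_sub_L hz
    by_cases hzy : C.B z y = 0
    · obtain ⟨t, -, rfl⟩ := C.L_dep (C.Xi_sub_L h.yXi) hzL (by rw [C.symm]; exact hzy)
      exact Q.smul_mem t q2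
    · exact q1 z hzL hzy
  let bs := Module.finBasis ℝ C.V1
  have q4 : ∀ᶠ N : ℕ in atTop, ∀ i, C.B ((g ^ N) (bs i : V)) w = 0 :=
    Filter.eventually_all.2 fun i => q3 (bs i).2
  obtain ⟨N, hN⟩ := q4.exists
  let T : C.V1 →ₗ[ℝ] ℝ := (C.B.flip w) ∘ₗ ((g ^ N : V ≃ₗ[ℝ] V) : V →ₗ[ℝ] V) ∘ₗ C.V1.subtype
  have hT : T = 0 := bs.ext fun i => by
    rw [LinearMap.zero_apply]
    exact hN i
  apply h.V1_nd hw
  intro v hv
  have h1 : (g⁻¹ ^ N) v ∈ C.V1 := C.V1_map (h.swap.powmem N) hv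
  have h2 : T ⟨_, h1⟩ = 0 := by rw [hT, LinearMap.zero_apply]
  have h3 : C.B ((g ^ N) ((g⁻¹ ^ N) v)) w = 0 := h2
  have h4 : (g ^ N) ((g⁻¹ ^ N) v) = v := by
    rw [inv_pow]
    exact LinearEquiv.apply_symm_apply (g ^ N) v
  rw [h4] at h3
  rw [C.symm]
  exact h3

variable (C)

/-- The vectors whose orbits meet `U` up to sign. -/
def Mset (U : Set V) : Set V := {v | ∃ k ∈ C.G, k v ∈ U ∨ -(k v) ∈ U}

/-- The interior (relative to the limit cone) of the closure of these vectors. -/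
def Int (U : Set V) : Set V := {x | x ∈ C.L ∧ ∀ᶠ x' in 𝓝 x, x' ∈ C.L →
  x' ∈ closure (C.Mset U ∩ C.L)}

variable {C}

lemma Cl_map {U : Set V} {k : V ≃ₗ[ℝ] V} (hk : k ∈ C.G) {v : V}
    (hv : k v ∈ closure (C.Mset U ∩ C.L)) : v ∈ closure (C.Mset U ∩ C.L) := by
  have hc : Continuous (k⁻¹ : V ≃ₗ[ℝ] V) :=
    LinearMap.continuous_of_finiteDimensional ((k⁻¹ : V ≃ₗ[ℝ] V) : V →ₗ[ℝ] V)
  have h1 := map_mem_closure (t := C.Mset U ∩ C.L) hc hv (by
    rintro z ⟨⟨k', hk', hz⟩, hzL⟩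
    refine ⟨⟨k' * k, C.G.mul_mem hk' hk, ?_⟩, C.L_map hzL (C.G.inv_mem hk)⟩
    have : (k' * k : V ≃ₗ[ℝ] V) ((k⁻¹ : V ≃ₗ[ℝ] V) z) = k' z := by
      rw [LinearEquiv.mul_apply]
      congr 1
      exact LinearEquiv.apply_symm_apply k z
    rw [this]
    exact hz)
  have h2 : (k⁻¹ : V ≃ₗ[ℝ] V) (k v) = v := LinearEquiv.symm_apply_apply k v
  rwa [h2] at h1

omit [FiniteDimensional ℝ V] in
lemma Int_open {U : Set V} {x : V} (hx : x ∈ C.Int U) : ∀ᶠ x' in 𝓝 x, x' ∈ C.L → x' ∈ C.Int U := by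
  filter_upwards [eventually_eventually_nhds.2 hx.2] with x' h1 h2
  exact ⟨h2, h1⟩

omit [FiniteDimensional ℝ V] in
lemma Int_base {U : Set V} {x : V} (hx : x ∈ C.L) (hU : U ∈ 𝓝 x) : x ∈ C.Int U := by
  refine ⟨hx, ?_⟩
  filter_upwards [hU] with x' h1 h2
  exact subset_closure ⟨⟨1, C.G.one_mem, Or.inl h1⟩, h2⟩

lemma Int_neg {U : Set V} {x : V} (hx : x ∈ C.Int U) : -x ∈ C.Int U := by
  obtain ⟨h1, h2⟩ := hx
  have hnL : ∀ z : V, z ∈ C.L → -z ∈ C.L := fun z hz => by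
    have := C.L_smul hz (t := -1) (by norm_num)
    rwa [neg_smul, one_smul] at this
  refine ⟨hnL x h1, ?_⟩
  have h3 : Tendsto (fun z : V => -z) (𝓝 (-x)) (𝓝 x) := by
    have := (continuous_neg (G := V)).tendsto (-x)
    rwa [neg_neg] at this
  filter_upwards [h3.eventually h2] with x' h4 h5
  have h6 := h4 (hnL x' h5)
  have h7 := map_mem_closure (t := C.Mset U ∩ C.L) (continuous_neg (G := V)) h6 (by
    rintro z ⟨⟨k', hk', hz⟩, hzL⟩
    refine ⟨⟨k', hk', ?_⟩, hnL z hzL⟩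
    rw [map_neg, neg_neg]
    exact hz.symm)
  rwa [neg_neg] at h7

lemma Int_step (hmove : ∀ x ∈ C.Xi, ∃ k ∈ C.G, C.B (k x) x ≠ 0) {U : Set V} {x z c : V}
    (hx : x ∈ C.L) (hc : c ∈ C.L) (hcx : C.B c x ≠ 0) (hcz : C.B c z = C.B c x)
    (hz : z ∈ C.Int U) : x ∈ C.Int U := by
  refine ⟨hx, ?_⟩
  have hcz0 : C.B c z ≠ 0 := by rw [hcz]; exact hcx
  let F : V → V := fun x' => (C.B c x' / C.B c z) • z
  have hF : Continuous F := by
    have c1 : Continuous (fun x' : V => C.B c x') := C.cont' continuous_const continuous_id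
    fun_prop
  have hFx : F x = z := by
    simp only [F]
    rw [hcz, div_self hcx, one_smul]
  have h0 : ∀ᶠ u in 𝓝 (F x), ∀ᶠ z' in 𝓝 u, z' ∈ C.L → z' ∈ closure (C.Mset U ∩ C.L) := by
    rw [hFx]
    exact eventually_eventually_nhds.2 hz.2
  have h1 : ∀ᶠ x' in 𝓝 x, ∀ᶠ z' in 𝓝 (F x'), z' ∈ C.L → z' ∈ closure (C.Mset U ∩ C.L) :=
    (hF.tendsto x).eventually h0
  have h2 : ∀ᶠ x' in 𝓝 x, C.B c x' ≠ 0 :=
    ((C.cont' continuous_const continuous_id).continuousAt (x := x)).eventually_ne hcx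
  filter_upwards [h1, h2] with x' h3 h4 h5
  rw [mem_closure_iff_nhds]
  intro O hO
  have h6 : F x' ∈ C.L := C.L_smul hz.1 (div_ne_zero h4 hcz0)
  obtain ⟨x'', k1, k2, k, hk, k3⟩ := chain hmove h5 h6 h4 (by
    simp only [F]
    rw [map_smul, smul_eq_mul, div_mul_cancel₀ _ hcz0]) hc (interior_mem_nhds.2 hO) h3
  have k4 := Cl_map hk (k3 (C.L_map k2 hk))
  obtain ⟨v, hv1, hv2⟩ := mem_closure_iff_nhds.1 k4 _ (mem_interior_iff_mem_nhds.1 k1)
  exact ⟨v, hv1, hv2⟩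

/-- Scalings close to `1` preserving the interior. -/
lemma HP.scalings {g : V ≃ₗ[ℝ] V} {x y : V} {a : ℝ} (h : C.HP g x y a)
    (hmove : ∀ x ∈ C.Xi, ∃ k ∈ C.G, C.B (k x) x ≠ 0) {b : V} (hb : b ∈ C.L)
    (hbx : C.B b x ≠ 0) (hby : C.B b y ≠ 0) (U : Set V) {δ : ℝ} (hδ : 0 < δ) :
    ∃ ρ : ℝ, 1 < ρ ∧ ρ - 1 < δ ∧ ∀ t : ℝ, t ≠ 0 → (t • y ∈ C.Int U ↔ (t * ρ) • y ∈ C.Int U) := by
  have hxL := C.Xi_sub_L h.xXi
  have hyL := C.Xi_sub_L h.yXi
  have hxy := h.xy
  have hxb : C.B x b ≠ 0 := by rw [C.symm]; exact hbx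
  let ρ : V → ℝ := fun c => (C.B x y * C.B c b) / (C.B x b * C.B c y)
  have hρc : ContinuousAt ρ x := by
    have c1 : ContinuousAt (fun c : V => C.B c b) x :=
      (C.cont' continuous_id continuous_const).continuousAt
    have c2 : ContinuousAt (fun c : V => C.B c y) x :=
      (C.cont' continuous_id continuous_const).continuousAt
    exact (continuousAt_const.mul c1).div (continuousAt_const.mul c2) (mul_ne_zero hxb hxy)
  have hρx : ρ x = 1 := by
    simp only [ρ]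
    rw [mul_comm (C.B x b)]
    exact div_self (mul_ne_zero hxy hxb)
  set δ' := min (δ / 2) (1 / 2) with hδ'
  have hδ'0 : 0 < δ' := by positivity
  have h1 : ∀ᶠ c in 𝓝 x, |ρ c - 1| < δ' := by
    have := hρc.tendsto
    rw [hρx, Metric.tendsto_nhds] at this
    exact this δ' hδ'0
  have h2 : ∀ᶠ c in 𝓝 x, C.B c b ≠ 0 :=
    ((C.cont' continuous_id continuous_const).continuousAt (x := x)).eventually_ne hxb
  have h3 : ∀ᶠ c in 𝓝 x, C.B c y ≠ 0 :=
    ((C.cont' continuous_id continuous_const).continuousAt (x := x)).eventually_ne hxy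
  obtain ⟨c, hc, hc1, hc2, hc3, hc4⟩ : ∃ c ∈ C.L, |ρ c - 1| < δ' ∧ C.B c b ≠ 0 ∧ C.B c y ≠ 0 ∧
      ρ c ≠ 1 := by
    by_contra hcon
    push Not at hcon
    have hw : C.B x y • b - C.B x b • y ∈ C.V1 :=
      C.V1.sub_mem (C.V1.smul_mem _ (C.L_V1 hb)) (C.V1.smul_mem _ (C.L_V1 hyL))
    have h0 := h.local_span hb hbx hby hw (by
      filter_upwards [h1, h2, h3] with c k1 k2 k3 k4
      have k5 := hcon c k4 k1 k2 k3
      have k6 : C.B x y * C.B c b = C.B x b * C.B c y := by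
        have k7 : (C.B x y * C.B c b) / (C.B x b * C.B c y) = 1 := k5
        rwa [div_eq_one_iff_eq (mul_ne_zero hxb k3)] at k7
      rw [map_sub, map_smul, map_smul, smul_eq_mul, smul_eq_mul, k6, sub_self])
    have h4 : C.B (C.B x y • b - C.B x b • y) y = 0 := by rw [h0]; simp
    rw [map_sub, map_smul, map_smul, LinearMap.sub_apply, LinearMap.smul_apply,
      LinearMap.smul_apply, h.yy, smul_zero, sub_zero, smul_eq_mul] at h4
    exact mul_ne_zero hxy hby h4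
  have inv : ∀ t : ℝ, t ≠ 0 → (t • y ∈ C.Int U ↔ (t * ρ c) • y ∈ C.Int U) := by
    intro t ht
    have hs : t * C.B x y / C.B x b ≠ 0 := div_ne_zero (mul_ne_zero ht hxy) hxb
    have hρ0 : ρ c ≠ 0 := div_ne_zero (mul_ne_zero hxy hc2) (mul_ne_zero hxb hc3)
    have e1 : C.B x (t • y) = C.B x ((t * C.B x y / C.B x b) • b) := by
      rw [map_smul, map_smul, smul_eq_mul, smul_eq_mul]
      field_simp
    have e2 : C.B c ((t * ρ c) • y) = C.B c ((t * C.B x y / C.B x b) • b) := by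
      rw [map_smul, map_smul, smul_eq_mul, smul_eq_mul]
      simp only [ρ]
      field_simp
    have n1 : C.B x (t • y) ≠ 0 := by
      rw [map_smul]
      exact mul_ne_zero ht hxy
    have n2 : C.B c ((t * ρ c) • y) ≠ 0 := by
      rw [map_smul]
      exact mul_ne_zero (mul_ne_zero ht hρ0) hc3
    have m1 : (t * C.B x y / C.B x b) • b ∈ C.L := C.L_smul hb hs
    constructor
    · intro k1
      have k2 := Int_step hmove m1 hxL (by rw [← e1]; exact n1) e1 k1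
      exact Int_step hmove (C.L_smul hyL (mul_ne_zero ht hρ0)) hc n2 e2.symm k2
    · intro k1
      have k2 := Int_step hmove m1 hc (by rw [← e2]; exact n2) e2 k1
      exact Int_step hmove (C.L_smul hyL ht) hxL n1 e1.symm k2
  have hδ'1 : δ' ≤ 1 / 2 := min_le_right _ _
  have hδ'2 : δ' ≤ δ / 2 := min_le_left _ _
  have hab := abs_lt.1 hc1
  rcases lt_or_gt_of_ne hc4 with hlt | hgt
  · have hpos : 0 < ρ c := by linarith [hab.1]
    refine ⟨(ρ c)⁻¹, (one_lt_inv₀ hpos).2 hlt, ?_, fun t ht => ?_⟩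
    · have e1 : (ρ c)⁻¹ - 1 = (1 - ρ c) / ρ c := by
        field_simp
      rw [e1, div_lt_iff₀ hpos]
      nlinarith [hab.1]
    · have k1 := inv (t * (ρ c)⁻¹) (mul_ne_zero ht (inv_ne_zero hpos.ne'))
      rw [mul_assoc, inv_mul_cancel₀ hpos.ne', mul_one] at k1
      exact k1.symm
  · exact ⟨ρ c, hgt, by linarith [hab.2], inv⟩

lemma HP.Int_all {g : V ≃ₗ[ℝ] V} {x y : V} {a : ℝ} (h : C.HP g x y a)
    (hmove : ∀ x ∈ C.Xi, ∃ k ∈ C.G, C.B (k x) x ≠ 0) {b : V} (hb : b ∈ C.L)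
    (hbx : C.B b x ≠ 0) (hby : C.B b y ≠ 0) {U : Set V} {t0 : ℝ} (ht0 : t0 ≠ 0)
    (hI : t0 • y ∈ C.Int U) {t : ℝ} (ht : t ≠ 0) : t • y ∈ C.Int U := by
  have hyL := C.Xi_sub_L h.yXi
  -- the case of equal signs
  have pos : ∀ t0 : ℝ, t0 ≠ 0 → t0 • y ∈ C.Int U → ∀ t : ℝ, 0 < t / t0 → t • y ∈ C.Int U := by
    intro t0 ht0 hI t htt
    have h1 : Tendsto (fun s : ℝ => (s * t0) • y) (𝓝 1) (𝓝 (t0 • y)) := by
      have : Continuous fun s : ℝ => (s * t0) • y := by fun_prop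
      have h2 := this.tendsto 1
      rwa [one_mul] at h2
    have h2 := h1.eventually (Int_open hI)
    rw [Metric.eventually_nhds_iff] at h2
    obtain ⟨δ, hδ, h3⟩ := h2
    obtain ⟨ρ, hρ1, hρδ, hρ⟩ := h.scalings hmove hb hbx hby U hδ
    have hρ0 : 0 < ρ := by linarith
    obtain ⟨m, hm1, hm2⟩ := exists_mem_Ico_zpow htt hρ1
    have hρm : 0 < ρ ^ m := zpow_pos hρ0 m
    set s := t / t0 / ρ ^ m with hs
    have hs1 : 1 ≤ s := by rw [hs, le_div_iff₀ hρm]; linarith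
    have hs2 : s < ρ := by
      rw [hs, div_lt_iff₀ hρm]
      rw [zpow_add_one₀ hρ0.ne'] at hm2
      linarith
    have hs0 : s ≠ 0 := by linarith
    have k1 : (s * t0) • y ∈ C.Int U := by
      refine h3 ?_ (C.L_smul hyL (mul_ne_zero hs0 ht0))
      rw [Real.dist_eq, abs_of_nonneg (by linarith)]
      linarith
    have k2 : ∀ n : ℕ, ∀ u : ℝ, u ≠ 0 → (u • y ∈ C.Int U ↔ (u * ρ ^ n) • y ∈ C.Int U) := by
      intro n
      induction n with
      | zero => intro u _; simp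
      | succ n ih =>
          intro u hu
          rw [ih u hu, hρ _ (mul_ne_zero hu (pow_ne_zero _ hρ0.ne')), pow_succ, mul_assoc]
    have k3 : ((s * t0) * ρ ^ m) • y ∈ C.Int U := by
      have hu : s * t0 ≠ 0 := mul_ne_zero hs0 ht0
      obtain ⟨n, rfl | rfl⟩ := m.eq_nat_or_neg
      · rw [zpow_natCast]
        exact (k2 n _ hu).1 k1
      · refine (k2 n _ (mul_ne_zero hu hρm.ne')).2 ?_
        rw [zpow_neg, zpow_natCast, mul_assoc, inv_mul_cancel₀ (pow_ne_zero _ hρ0.ne'), mul_one]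
        exact k1
    have k4 : (s * t0) * ρ ^ m = t := by
      rw [hs]
      field_simp
    rwa [k4] at k3
  rcases lt_or_gt_of_ne (div_ne_zero ht ht0) with hlt | hgt
  · have h1 := Int_neg hI
    rw [← neg_smul] at h1
    refine pos (-t0) (neg_ne_zero.2 ht0) h1 t ?_
    rw [div_neg]
    linarith
  · exact pos t0 ht0 hI t hgt

/-- The light-like case. -/
theorem HP.orbit_null [Countable C.G] {g : V ≃ₗ[ℝ] V} {x y : V} {a : ℝ} (h : C.HP g x y a)
    (hmove : ∀ x ∈ C.Xi, ∃ k ∈ C.G, C.B (k x) x ≠ 0) {b : V} (hb : b ∈ C.L)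
    (hbx : C.B b x ≠ 0) (hby : C.B b y ≠ 0) {x1 : V} (hx1 : x1 ∈ C.L) :
    ∃ v ∈ C.V1, ∀ ε : ℝ, 0 < ε → ∃ k ∈ C.G, ‖k v - x1‖ < ε ∧ k v ≠ x1 := by
  have hxL := C.Xi_sub_L h.xXi
  have hyL := C.Xi_sub_L h.yXi
  have h3 := h.three hb hbx hby
  have all : ∀ U ∈ 𝓝 x1, ∀ z ∈ C.L, z ∈ C.Int U := by
    intro U hU z hz
    have k1 := Int_base hx1 hU
    obtain ⟨c, hc, hc1, hcy⟩ := h3 x1 hx1 y hyL
    have k2 : (C.B c x1 / C.B c y) • y ∈ C.Int U := by
      have e1 : C.B c x1 = C.B c ((C.B c x1 / C.B c y) • y) := by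
        rw [map_smul, smul_eq_mul, div_mul_cancel₀ _ hcy]
      exact Int_step hmove (C.L_smul hyL (div_ne_zero hc1 hcy)) hc (by rw [← e1]; exact hc1) e1 k1
    have k3 := fun {t : ℝ} (ht : t ≠ 0) =>
      h.Int_all hmove hb hbx hby (div_ne_zero hc1 hcy) k2 (t := t) ht
    obtain ⟨c', hc', hc'z, hc'y⟩ := h3 z hz y hyL
    have e2 : C.B c' ((C.B c' z / C.B c' y) • y) = C.B c' z := by
      rw [map_smul, smul_eq_mul, div_mul_cancel₀ _ hc'y]
    exact Int_step hmove hz hc' hc'z e2 (k3 (div_ne_zero hc'z hc'y))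
  have hcl : closure C.Xi ⊆ (C.V1 : Set V) :=
    closure_minimal (fun z hz => Submodule.subset_span hz) C.V1.closed_of_finiteDimensional
  obtain ⟨v, hv, hv'⟩ := C.baire_orbit (X := closure C.Xi) isClosed_closure
    ⟨x1, hx1.2⟩ x1 (by
      intro U hU v0 hv0 O hO
      obtain ⟨z, hz1, hz2⟩ := mem_closure_iff_nhds.1 hv0 _ (interior_mem_nhds.2 hO)
      have k1 := all U hU z (C.Xi_sub_L hz2)
      have k2 := k1.2.self_of_nhds k1.1
      obtain ⟨v, hv1, ⟨hv2, hv3⟩⟩ := mem_closure_iff_nhds.1 k2 O (mem_interior_iff_mem_nhds.1 hz1)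
      exact ⟨v, hv1, hv3.2, hv2⟩) (by
      intro v0 hv0 O hO
      by_cases h0 : v0 = 0
      · have t1 : Tendsto (fun t : ℝ => t • x) (𝓝[≠] 0) (𝓝 v0) := by
          have : Continuous fun t : ℝ => t • x := by fun_prop
          have h1 := (this.tendsto 0).mono_left (nhdsWithin_le_nhds (s := {0}ᶜ))
          rw [zero_smul] at h1
          rwa [h0]
        obtain ⟨t, ht1, ht2⟩ := ((t1.eventually_mem hO).and self_mem_nhdsWithin).exists
        refine ⟨t • x, ht1, (C.L_smul hxL ht2).2, ?_⟩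
        rw [h0]
        exact (C.L_smul hxL ht2).1
      · have t1 : Tendsto (fun t : ℝ => (1 + t) • v0) (𝓝[≠] 0) (𝓝 v0) := by
          have : Continuous fun t : ℝ => (1 + t) • v0 := by fun_prop
          have h1 := (this.tendsto 0).mono_left (nhdsWithin_le_nhds (s := {0}ᶜ))
          rwa [add_zero, one_smul] at h1
        have t2 : ∀ᶠ t : ℝ in 𝓝[≠] 0, 1 + t ≠ 0 := by
          have : Continuous fun t : ℝ => 1 + t := by fun_prop
          have h1 := (this.tendsto 0).mono_left (nhdsWithin_le_nhds (s := {0}ᶜ))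
          exact h1.eventually_ne (by norm_num)
        obtain ⟨t, ⟨ht1, ht2⟩, ht3⟩ := (((t1.eventually_mem hO).and t2).and
          self_mem_nhdsWithin).exists
        refine ⟨(1 + t) • v0, ht1, (C.L_smul ⟨h0, hv0⟩ ht2).2, ?_⟩
        intro h1
        have h2 : t • v0 = 0 := by
          rw [add_smul, one_smul] at h1
          simpa using h1
        rcases smul_eq_zero.1 h2 with h4 | h4
        · exact ht3 h4
        · exact h0 h4)
  refine ⟨v, ?_, hv'⟩
  rcases hv with h1 | h1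
  · exact hcl h1
  · have := C.V1.neg_mem (hcl h1)
    rwa [neg_neg] at this

/-- The general statement on orbits. -/
theorem orbit_all [Countable C.G] (hmove : ∀ x ∈ C.Xi, ∃ k ∈ C.G, C.B (k x) x ≠ 0) {x1 : V}
    (hx1 : x1 ∈ closure C.R) (h0 : x1 ≠ 0) :
    ∃ v ∈ C.V1, ∀ ε : ℝ, 0 < ε → ∃ k ∈ C.G, ‖k v - x1‖ < ε ∧ k v ≠ x1 := by
  by_cases hc : 0 < C.B x1 x1
  · exact orbit_pos hmove hx1 hc
  · obtain ⟨p, hp, hp0⟩ := R_sub_perp hx1
    obtain ⟨t, ht⟩ := C.light_dep (C.L_light hp) hp.1 (not_lt.1 hc) hp0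
    have ht0 : t ≠ 0 := by
      rintro rfl
      exact h0 (by rw [ht, zero_smul])
    obtain ⟨u, hu1, ⟨huV, g, p0, q0, a, h, hup⟩⟩ := mem_closure_iff_nhds.1 hx1 _
      (isOpen_ne.mem_nhds h0)
    obtain ⟨b, hb, hbx, hby⟩ := h.third huV hup hu1
    exact h.orbit_null hmove hb hbx hby (by rw [ht]; exact C.L_smul hp ht0)

end Ctx

end Pool.Agent.H14.LT
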