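import Pool.Agent.H14.LT.Hyp

set_option autoImplicit false

/-!
# Density of hyperbolic pairs
-/

namespace Pool.Agent.H14.LT

open Filter Topology

variable {V : Type*} [NormedAddCommGroup V] [NormedSpace ℝ V] [FiniteDimensional ℝ V]

namespace Ctx

variable (C : Ctx V)

lemma lin_bound (f : V →ₗ[ℝ] V) : ∃ M : ℝ, 0 < M ∧ ∀ v, ‖f v‖ ≤ M * ‖v‖ := by
  refine ⟨‖f.toContinuousLinearMap‖ + 1, by positivity, fun v => ?_⟩
  have h1 := f.toContinuousLinearMap.le_opNorm v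
  have h2 : 0 ≤ ‖v‖ := norm_nonneg v
  have h3 : ‖f v‖ ≤ ‖f.toContinuousLinearMap‖ * ‖v‖ := h1
  nlinarith

variable {C}

lemma near_eig {g h k : V ≃ₗ[ℝ] V} {r y x q : V} {a b : ℝ} (hg : C.HP g r y a)
    (hh : C.HP h x q b) (hk : C.B (k x) y ≠ 0) (hrq : C.B r q ≠ 0) (ε : ℝ)
    (hε : 0 < ε) : ∀ᶠ N : ℕ in atTop, ∃ (r' : V) (κ : ℝ), (g ^ N * k * h ^ N) r' = κ • r' ∧
      ‖r' - r‖ < ε ∧ 1 < |κ| := by
  set m : ℝ := C.B (k x) y / C.B r y with hm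
  let φ : V →ₗ[ℝ] ℝ := (m * (C.B x q)⁻¹) • C.B.flip q
  have hφ : ∀ v, φ v = m * (C.B x q)⁻¹ * C.B v q := fun v => rfl
  have hm0 : m ≠ 0 := div_ne_zero hk hg.xy
  have hφr : φ r ≠ 0 := by
    rw [hφ]
    exact mul_ne_zero (mul_ne_zero hm0 (inv_ne_zero hh.xy)) hrq
  obtain ⟨δ, hδ, hS⟩ := eig_near φ r hφr (min ε (|φ r| / 2)) (by positivity)
  obtain ⟨K1, hK1, hr1⟩ := hg.rate
  obtain ⟨K2, hK2, hr2⟩ := hh.rate
  obtain ⟨Kk, hKk, hbk⟩ := lin_bound (k : V →ₗ[ℝ] V)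
  have hbk' : ∀ v, ‖k v‖ ≤ Kk * ‖v‖ := hbk
  obtain ⟨c', hc', hcb'⟩ := C.quad_bound
  have hry : 0 < |C.B r y| := abs_pos.2 hg.xy
  have hxq : 0 < |C.B x q| := abs_pos.2 hh.xy
  -- the convergence of the error
  set K3 := c' * ‖q‖ / |C.B x q| * ‖x‖ with hK3
  have hK30 : 0 ≤ K3 := by positivity
  have herr : Tendsto (fun N : ℕ => K1 * (|a| ^ N)⁻¹ * (Kk * (K3 + K2)) +
      c' * (Kk * (K2 * (|b| ^ N)⁻¹)) * ‖y‖ / |C.B r y| * ‖r‖) atTop (𝓝 0) := by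
    have h1 := ((hg.inv_pow_tendsto).const_mul K1).mul_const (Kk * (K3 + K2))
    have h2 := (((((hh.inv_pow_tendsto).const_mul K2).const_mul Kk).const_mul c').mul_const
      ‖y‖).mul_const (|C.B r y|⁻¹)
    have h3 := h2.mul_const ‖r‖
    have h4 := h1.add h3
    simp only [mul_zero, zero_mul, add_zero] at h4
    simpa only [div_eq_mul_inv] using h4
  have hbig : Tendsto (fun N : ℕ => |φ r| / 2 * (|a| ^ N * |b| ^ N)) atTop atTop := by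
    apply Tendsto.const_mul_atTop (by positivity)
    exact (tendsto_pow_atTop_atTop_of_one_lt hg.big).atTop_mul_atTop₀
      (tendsto_pow_atTop_atTop_of_one_lt hh.big)
  filter_upwards [herr.eventually (gt_mem_nhds hδ), hbig.eventually_gt_atTop 1] with N hN1 hN2
  have ha := hg.a0
  have hb := hh.a0
  have haN : a ^ N ≠ 0 := pow_ne_zero _ ha
  have hbN : b ^ N ≠ 0 := pow_ne_zero _ hb
  let S : V →ₗ[ℝ] V := ((a ^ N)⁻¹ * (b ^ N)⁻¹) • ((g ^ N * k * h ^ N : V ≃ₗ[ℝ] V) : V →ₗ[ℝ] V)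
  have hSv : ∀ v, S v = (a ^ N)⁻¹ • (g ^ N) (k ((b ^ N)⁻¹ • (h ^ N) v)) := by
    intro v
    have : S v = ((a ^ N)⁻¹ * (b ^ N)⁻¹) • (g ^ N) (k ((h ^ N) v)) := rfl
    rw [this, map_smul, map_smul, smul_smul]
  have hbN1 : (|b| ^ N)⁻¹ ≤ 1 := inv_le_one_of_one_le₀ (one_le_pow₀ hh.big.le)
  obtain ⟨r', τ, h1, h2, h3⟩ := hS S (by
    intro v
    set w := (b ^ N)⁻¹ • (h ^ N) v with hw
    set w0 := (C.B v q / C.B x q) • x with hw0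
    have e1 : ‖w - w0‖ ≤ K2 * (|b| ^ N)⁻¹ * ‖v‖ := hr2 N v
    have e2 : ‖w0‖ ≤ K3 * ‖v‖ := by
      rw [hw0, norm_smul, Real.norm_eq_abs, abs_div]
      calc |C.B v q| / |C.B x q| * ‖x‖ ≤ (c' * ‖v‖ * ‖q‖) / |C.B x q| * ‖x‖ := by
            gcongr
            exact hcb' v q
        _ = K3 * ‖v‖ := by rw [hK3]; ring
    have e3 : ‖w‖ ≤ (K3 + K2) * ‖v‖ := by
      have h0 : ‖w‖ ≤ ‖w - w0‖ + ‖w0‖ := by
        calc ‖w‖ = ‖(w - w0) + w0‖ := by rw [sub_add_cancel]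
          _ ≤ _ := norm_add_le _ _
      have h0' : K2 * (|b| ^ N)⁻¹ * ‖v‖ ≤ K2 * 1 * ‖v‖ := by gcongr
      linarith
    have e4 := hr1 N (k w)
    have e5 : φ v • r = (C.B (k w0) y / C.B r y) • r := by
      congr 1
      rw [hφ, hw0, map_smul, map_smul, LinearMap.smul_apply, smul_eq_mul, hm]
      ring
    have e6 : S v - φ v • r = ((a ^ N)⁻¹ • (g ^ N) (k w) - (C.B (k w) y / C.B r y) • r) +
        (C.B (k (w - w0)) y / C.B r y) • r := by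
      rw [hSv v, e5, map_sub, map_sub, LinearMap.sub_apply, sub_div, sub_smul]
      abel
    rw [e6]
    calc ‖((a ^ N)⁻¹ • (g ^ N) (k w) - (C.B (k w) y / C.B r y) • r) +
          (C.B (k (w - w0)) y / C.B r y) • r‖
        ≤ ‖(a ^ N)⁻¹ • (g ^ N) (k w) - (C.B (k w) y / C.B r y) • r‖ +
          ‖(C.B (k (w - w0)) y / C.B r y) • r‖ := norm_add_le _ _
      _ ≤ K1 * (|a| ^ N)⁻¹ * ‖k w‖ + |C.B (k (w - w0)) y| / |C.B r y| * ‖r‖ := by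
          rw [norm_smul (C.B (k (w - w0)) y / C.B r y), Real.norm_eq_abs, abs_div]
          gcongr
      _ ≤ K1 * (|a| ^ N)⁻¹ * (Kk * ((K3 + K2) * ‖v‖)) +
          (c' * (Kk * (K2 * (|b| ^ N)⁻¹ * ‖v‖)) * ‖y‖) / |C.B r y| * ‖r‖ := by
          gcongr
          · exact (hbk' w).trans (by gcongr)
          · refine (hcb' _ _).trans ?_
            gcongr
            exact (hbk' _).trans (by gcongr)
      _ = (K1 * (|a| ^ N)⁻¹ * (Kk * (K3 + K2)) +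
          c' * (Kk * (K2 * (|b| ^ N)⁻¹)) * ‖y‖ / |C.B r y| * ‖r‖) * ‖v‖ := by ring
      _ ≤ δ * ‖v‖ := by gcongr)
  refine ⟨r', τ * (a ^ N * b ^ N), ?_, lt_of_lt_of_le h2 (min_le_left _ _), ?_⟩
  · have h4 : S r' = ((a ^ N)⁻¹ * (b ^ N)⁻¹) • (g ^ N * k * h ^ N : V ≃ₗ[ℝ] V) r' := rfl
    rw [h4] at h1
    have h5 := congrArg (fun z => (a ^ N * b ^ N) • z) h1
    simp only [smul_smul] at h5
    have h6 : a ^ N * b ^ N * ((a ^ N)⁻¹ * (b ^ N)⁻¹) = 1 := by field_simp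
    rw [h6, one_smul] at h5
    rw [h5, mul_comm]
  · have h4 : |τ - φ r| < |φ r| / 2 := lt_of_lt_of_le h3 (min_le_right _ _)
    have h5 : |φ r| / 2 ≤ |τ| := by
      have := abs_sub_abs_le_abs_sub (φ r) τ
      rw [abs_sub_comm] at this
      linarith
    rw [abs_mul, abs_mul, abs_pow, abs_pow]
    calc 1 < |φ r| / 2 * (|a| ^ N * |b| ^ N) := hN2
      _ ≤ |τ| * (|a| ^ N * |b| ^ N) := by gcongr

/-- Hyperbolic pairs are dense in pairs of points of the limit cone. -/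
theorem dens (hmove : ∀ x ∈ C.Xi, ∃ k ∈ C.G, C.B (k x) x ≠ 0) {q r : V} (hq : q ∈ C.L)
    (hr : r ∈ C.L) (hqr : C.B q r ≠ 0) {U U' : Set V} (hU : U ∈ 𝓝 q) (hU' : U' ∈ 𝓝 r) :
    ∃ g r' q' a, C.HP g r' q' a ∧ q' ∈ U ∧ r' ∈ U' := by
  have hne : ∀ᶠ z : V × V in 𝓝 (q, r), C.B z.1 z.2 ≠ 0 :=
    (C.cont.continuousAt (x := (q, r))).eventually_ne hqr
  have hUU : U ×ˢ U' ∈ 𝓝 (q, r) := prod_mem_nhds hU hU'
  obtain ⟨W, hW, hWo, hWm⟩ := eventually_nhds_iff.1 (hne.and (eventually_mem_set.2 hUU))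
  obtain ⟨A, A', hAo, hA'o, hqA, hrA', hAA⟩ := isOpen_prod_iff.1 hWo q r hWm
  obtain ⟨q1, hq1A, hq1⟩ := C.L_near hq (hAo.mem_nhds hqA)
  obtain ⟨r1, hr1A, hr1⟩ := C.L_near hr (hA'o.mem_nhds hrA')
  obtain ⟨g, y, a, hg⟩ := C.exists_HP hr1
  obtain ⟨h', x, b, hh'⟩ := C.exists_HP hq1
  -- `hh'.swap : HP h'⁻¹ x q1 b`
  have hh := hh'.swap
  have hrq1 : C.B r1 q1 ≠ 0 := by
    rw [C.symm]
    exact (hW (q1, r1) (hAA ⟨hq1A, hr1A⟩)).1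
  obtain ⟨k, hkG, hk⟩ : ∃ k ∈ C.G, C.B (k x) y ≠ 0 := by
    by_cases hxy : C.B x y = 0
    · obtain ⟨t, ht, hty⟩ := C.L_dep (C.Xi_sub_L hh.xXi) (C.Xi_sub_L hg.yXi) hxy
      obtain ⟨k, hk, hkx⟩ := hmove x hh.xXi
      refine ⟨k, hk, ?_⟩
      rw [hty, map_smul, smul_eq_mul]
      exact mul_ne_zero ht hkx
    · exact ⟨1, C.G.one_mem, hxy⟩
  obtain ⟨ε1, hε1, hb1⟩ := Metric.isOpen_iff.1 hAo q1 hq1A
  obtain ⟨ε2, hε2, hb2⟩ := Metric.isOpen_iff.1 hA'o r1 hr1A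
  have e1 := near_eig hg hh hk hrq1 ε2 hε2
  have hk' : C.B ((k⁻¹ : V ≃ₗ[ℝ] V) y) x ≠ 0 := by
    rw [C.inv_symm (C.G.inv_mem hkG), inv_inv, C.symm]
    exact hk
  have e2 := near_eig hh.swap hg.swap hk' (by rw [C.symm]; exact hrq1) ε1 hε1
  obtain ⟨N, ⟨r', κ, f1, f2, f3⟩, ⟨q', κ', f4, f5, f6⟩⟩ := (e1.and e2).exists
  have hr'A : r' ∈ A' := hb2 (by rw [Metric.mem_ball, dist_eq_norm]; exact f2)
  have hq'A : q' ∈ A := hb1 (by rw [Metric.mem_ball, dist_eq_norm]; exact f5)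
  have hn := hW (q', r') (hAA ⟨hq'A, hr'A⟩)
  set f : V ≃ₗ[ℝ] V := g ^ N * k * (h'⁻¹) ^ N with hf
  have hfG : f ∈ C.G := C.G.mul_mem (C.G.mul_mem (hg.powmem N) hkG) (hh.powmem N)
  have hfi : (h'⁻¹⁻¹ ^ N * k⁻¹ * g⁻¹ ^ N : V ≃ₗ[ℝ] V) = f⁻¹ := by
    rw [hf]
    simp only [mul_inv_rev, inv_pow, inv_inv, mul_assoc]
  rw [hfi] at f4
  have hκ'0 : κ' ≠ 0 := by
    rintro rfl
    simp at f6
    linarith
  have hfq : f q' = κ'⁻¹ • q' := by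
    have h1 : f (f⁻¹ q') = q' := LinearEquiv.apply_symm_apply f q'
    rw [f4, map_smul] at h1
    have h2 := congrArg (fun z => κ'⁻¹ • z) h1
    simp only [smul_smul, inv_mul_cancel₀ hκ'0, one_smul] at h2
    exact h2
  have hκ : κ' = κ := by
    have h1 := C.inv f hfG q' r'
    rw [f1, hfq] at h1
    simp only [map_smul, LinearMap.smul_apply, smul_eq_mul] at h1
    have h2 : (κ * κ'⁻¹ - 1) * C.B q' r' = 0 := by linarith
    rcases mul_eq_zero.1 h2 with h3 | h3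
    · field_simp at h3
      linarith
    · exact absurd h3 hn.1
  rw [hκ] at hfq
  refine ⟨f, r', q', κ, ⟨hfG, ?_, ?_, f3, f1, hfq⟩, hn.2.1, hn.2.2⟩
  · rintro rfl
    exact hn.1 (by simp)
  · rintro rfl
    exact hn.1 (by simp)

end Ctx

end Pool.Agent.H14.LT
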