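import Mathlib

set_option autoImplicit false

/-!
# Perturbation of the eigenvector of a map of rank one
-/

namespace Pool.Agent.H14.LT

open Filter Topology

variable {V : Type*} [NormedAddCommGroup V] [NormedSpace ℝ V] [FiniteDimensional ℝ V]

/-- If `S` is close to the rank one map `v ↦ φ(v) r`, `φ(r) ≠ 0`, then it has an eigenvector close
to `r` with an eigenvalue close to `φ(r)`. -/
theorem eig_near (φ : V →ₗ[ℝ] ℝ) (r : V) (ht : φ r ≠ 0) (ε : ℝ) (hε : 0 < ε) :
    ∃ δ : ℝ, 0 < δ ∧ ∀ S : V →ₗ[ℝ] V, (∀ v, ‖S v - φ v • r‖ ≤ δ * ‖v‖) →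
      ∃ (x : V) (τ : ℝ), S x = τ • x ∧ ‖x - r‖ < ε ∧ |τ - φ r| < ε := by
  have : CompleteSpace V := FiniteDimensional.complete ℝ V
  set t := φ r with ht'
  obtain ⟨M, hM0, hM⟩ : ∃ M : ℝ, 0 < M ∧ ∀ v, |φ v| ≤ M * ‖v‖ := by
    refine ⟨‖φ.toContinuousLinearMap‖ + 1, by positivity, fun v => ?_⟩
    have h := φ.toContinuousLinearMap.le_opNorm v
    have h2 : 0 ≤ ‖v‖ := norm_nonneg v
    have h3 : |φ v| ≤ ‖φ.toContinuousLinearMap‖ * ‖v‖ := h
    nlinarith
  set R := ‖r‖ + 1 with hR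
  have hR0 : 0 < R := by positivity
  have hr : ‖r‖ ≤ R := by rw [hR]; linarith
  have hta : 0 < |t| := abs_pos.2 ht
  have ht2 : 0 < t ^ 2 := by positivity
  have hsq : |t| ^ 2 = t ^ 2 := sq_abs t
  set ρ := min (ε / 2) 1 with hρ
  have hρ0 : 0 < ρ := by positivity
  have hρ1 : ρ ≤ 1 := min_le_right _ _
  have hρε : ρ ≤ ε / 2 := min_le_left _ _
  -- constants
  set K1 := 2 / t ^ 2 * (|t| * R + M * R * R) with hK1
  set K2 := 2 / t ^ 2 * |t| + M * (4 / t ^ 4) * (t ^ 2 * R + |t| * R) with hK2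
  have hK10 : 0 < K1 := by positivity
  have hK20 : 0 < K2 := by positivity
  have ha : ∃ δ : ℝ, 0 < δ ∧ δ ≤ 1 ∧ M * δ * R ≤ t ^ 2 / 2 ∧ K1 * δ ≤ ρ ∧ K2 * δ ≤ 1 / 2 ∧
      M * δ * R ≤ |t| * (ε / 2) := by
    refine ⟨min 1 (min (t ^ 2 / 2 / (M * R)) (min (ρ / K1) (min (1 / 2 / K2)
      (|t| * (ε / 2) / (M * R))))), by positivity, min_le_left _ _, ?_, ?_, ?_, ?_⟩
    · have : min 1 (min (t ^ 2 / 2 / (M * R)) (min (ρ / K1) (min (1 / 2 / K2)
        (|t| * (ε / 2) / (M * R))))) ≤ t ^ 2 / 2 / (M * R) :=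
        (min_le_right _ _).trans (min_le_left _ _)
      rw [le_div_iff₀ (by positivity)] at this
      linarith
    · have : min 1 (min (t ^ 2 / 2 / (M * R)) (min (ρ / K1) (min (1 / 2 / K2)
        (|t| * (ε / 2) / (M * R))))) ≤ ρ / K1 :=
        (min_le_right _ _).trans ((min_le_right _ _).trans (min_le_left _ _))
      rw [le_div_iff₀ (by positivity)] at this
      linarith
    · have : min 1 (min (t ^ 2 / 2 / (M * R)) (min (ρ / K1) (min (1 / 2 / K2)
        (|t| * (ε / 2) / (M * R))))) ≤ 1 / 2 / K2 :=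
        (min_le_right _ _).trans ((min_le_right _ _).trans ((min_le_right _ _).trans
          (min_le_left _ _)))
      rw [le_div_iff₀ (by positivity)] at this
      linarith
    · have : min 1 (min (t ^ 2 / 2 / (M * R)) (min (ρ / K1) (min (1 / 2 / K2)
        (|t| * (ε / 2) / (M * R))))) ≤ |t| * (ε / 2) / (M * R) :=
        (min_le_right _ _).trans ((min_le_right _ _).trans ((min_le_right _ _).trans
          (min_le_right _ _)))
      rw [le_div_iff₀ (by positivity)] at this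
      linarith
  obtain ⟨δ, hδ0, hδ1, hδ2, hδ3, hδ4, hδ5⟩ := ha
  refine ⟨δ, hδ0, fun S hS => ?_⟩
  -- the error term
  let E : V → V := fun v => S v - φ v • r
  have hE : ∀ v, ‖E v‖ ≤ δ * ‖v‖ := hS
  have hEsub : ∀ v w, E v - E w = E (v - w) := by
    intro v w
    simp only [E, map_sub, sub_smul]
    abel
  let D : V → ℝ := fun v => t ^ 2 + φ (E v)
  let F : V → V := fun v => (D v)⁻¹ • (t ^ 2 • r + t • E v)
  have hball : ∀ v ∈ Metric.closedBall r ρ, ‖v‖ ≤ R := by
    intro v hv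
    have h1 : ‖v - r‖ ≤ ρ := by rwa [Metric.mem_closedBall, dist_eq_norm] at hv
    calc ‖v‖ = ‖(v - r) + r‖ := by rw [sub_add_cancel]
      _ ≤ ‖v - r‖ + ‖r‖ := norm_add_le _ _
      _ ≤ R := by rw [hR]; linarith
  have hEb : ∀ v ∈ Metric.closedBall r ρ, ‖E v‖ ≤ δ * R := fun v hv =>
    (hE v).trans (by gcongr; exact hball v hv)
  have hφE : ∀ v ∈ Metric.closedBall r ρ, |φ (E v)| ≤ M * δ * R := fun v hv =>
    (hM _).trans (by rw [mul_assoc]; gcongr; exact hEb v hv)
  have hD : ∀ v ∈ Metric.closedBall r ρ, t ^ 2 / 2 ≤ D v := by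
    intro v hv
    have := abs_le.1 (hφE v hv)
    simp only [D]
    linarith [this.1]
  have hDpos : ∀ v ∈ Metric.closedBall r ρ, 0 < D v := fun v hv =>
    lt_of_lt_of_le (by positivity) (hD v hv)
  have hDinv : ∀ v ∈ Metric.closedBall r ρ, (D v)⁻¹ ≤ 2 / t ^ 2 := by
    intro v hv
    rw [inv_le_comm₀ (hDpos v hv) (by positivity), inv_div]
    exact hD v hv
  have hmaps : Set.MapsTo F (Metric.closedBall r ρ) (Metric.closedBall r ρ) := by
    intro v hv
    have h1 : F v - r = (D v)⁻¹ • (t • E v - φ (E v) • r) := by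
      have h2 : (D v)⁻¹ • (D v • r) = r := by
        rw [smul_smul, inv_mul_cancel₀ (hDpos v hv).ne', one_smul]
      have h3 : F v - (D v)⁻¹ • (D v • r) = (D v)⁻¹ • (t • E v - φ (E v) • r) := by
        simp only [F]
        rw [← smul_sub]
        congr 1
        simp only [D]
        module
      rw [h2] at h3
      exact h3
    rw [Metric.mem_closedBall, dist_eq_norm, h1, norm_smul, Real.norm_eq_abs,
      abs_of_pos (inv_pos.2 (hDpos v hv))]
    have h3 : ‖t • E v - φ (E v) • r‖ ≤ (|t| * R + M * R * R) * δ := by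
      calc ‖t • E v - φ (E v) • r‖ ≤ ‖t • E v‖ + ‖φ (E v) • r‖ := norm_sub_le _ _
        _ = |t| * ‖E v‖ + |φ (E v)| * ‖r‖ := by rw [norm_smul, norm_smul]; rfl
        _ ≤ |t| * (δ * R) + (M * δ * R) * R := by
            gcongr
            · exact hEb v hv
            · exact hφE v hv
        _ = (|t| * R + M * R * R) * δ := by ring
    calc (D v)⁻¹ * ‖t • E v - φ (E v) • r‖ ≤ 2 / t ^ 2 * ((|t| * R + M * R * R) * δ) := by
          gcongr
          exact hDinv v hv
      _ = K1 * δ := by rw [hK1]; ring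
      _ ≤ ρ := hδ3
  have hlip : ∀ v ∈ Metric.closedBall r ρ, ∀ w ∈ Metric.closedBall r ρ,
      ‖F v - F w‖ ≤ 1 / 2 * ‖v - w‖ := by
    intro v hv w hw
    have h1 : F v - F w = (D v)⁻¹ • (t • E (v - w)) +
        ((D v)⁻¹ - (D w)⁻¹) • (t ^ 2 • r + t • E w) := by
      rw [← hEsub]
      simp only [F]
      module
    have h2 : |(D v)⁻¹ - (D w)⁻¹| ≤ M * (4 / t ^ 4) * δ * ‖v - w‖ := by
      have h3 : (D v)⁻¹ - (D w)⁻¹ = (D v)⁻¹ * (D w)⁻¹ * (D w - D v) := by
        have := (hDpos v hv).ne'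
        have := (hDpos w hw).ne'
        field_simp
      have h4 : D w - D v = φ (E (w - v)) := by
        have h5 := congrArg φ (hEsub w v)
        rw [map_sub] at h5
        rw [← h5]
        simp only [D]
        ring
      have hi1 : 0 ≤ (D v)⁻¹ := (inv_pos.2 (hDpos v hv)).le
      have hi2 : 0 ≤ (D w)⁻¹ := (inv_pos.2 (hDpos w hw)).le
      have hi3 := hDinv v hv
      have hi4 := hDinv w hw
      have hi5 : |φ (E (w - v))| ≤ M * (δ * ‖v - w‖) := by
        refine (hM _).trans ?_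
        gcongr
        rw [norm_sub_rev v w]
        exact hE _
      rw [h3, h4, abs_mul, abs_mul, abs_of_pos (inv_pos.2 (hDpos v hv)),
        abs_of_pos (inv_pos.2 (hDpos w hw))]
      calc (D v)⁻¹ * (D w)⁻¹ * |φ (E (w - v))| ≤ 2 / t ^ 2 * (2 / t ^ 2) * (M * (δ * ‖v - w‖)) := by
            gcongr
        _ = M * (4 / t ^ 4) * δ * ‖v - w‖ := by
            field_simp
            ring
    have h5 : ‖t ^ 2 • r + t • E w‖ ≤ t ^ 2 * R + |t| * R := by
      calc ‖t ^ 2 • r + t • E w‖ ≤ ‖t ^ 2 • r‖ + ‖t • E w‖ := norm_add_le _ _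
        _ = t ^ 2 * ‖r‖ + |t| * ‖E w‖ := by
            rw [norm_smul, norm_smul, Real.norm_eq_abs, Real.norm_eq_abs, abs_of_pos ht2]
        _ ≤ t ^ 2 * R + |t| * (1 * R) := by
            gcongr
            refine (hEb w hw).trans ?_
            gcongr
        _ = t ^ 2 * R + |t| * R := by ring
    rw [h1]
    calc ‖(D v)⁻¹ • (t • E (v - w)) + ((D v)⁻¹ - (D w)⁻¹) • (t ^ 2 • r + t • E w)‖
        ≤ ‖(D v)⁻¹ • (t • E (v - w))‖ + ‖((D v)⁻¹ - (D w)⁻¹) • (t ^ 2 • r + t • E w)‖ :=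
          norm_add_le _ _
      _ = (D v)⁻¹ * (|t| * ‖E (v - w)‖) + |(D v)⁻¹ - (D w)⁻¹| * ‖t ^ 2 • r + t • E w‖ := by
          rw [norm_smul, norm_smul, norm_smul, Real.norm_eq_abs, Real.norm_eq_abs,
            Real.norm_eq_abs, abs_of_pos (inv_pos.2 (hDpos v hv))]
      _ ≤ 2 / t ^ 2 * (|t| * (δ * ‖v - w‖)) +
          M * (4 / t ^ 4) * δ * ‖v - w‖ * (t ^ 2 * R + |t| * R) := by
          gcongr
          · exact hDinv v hv
          · exact hE _
      _ = K2 * δ * ‖v - w‖ := by rw [hK2]; ring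
      _ ≤ 1 / 2 * ‖v - w‖ := by gcongr
  have hcon : ContractingWith (1 / 2) (hmaps.restrict F _ _) := by
    refine ⟨by rw [← NNReal.coe_lt_coe]; norm_num, ?_⟩
    apply LipschitzWith.of_dist_le_mul
    intro v w
    rw [Subtype.dist_eq, Subtype.dist_eq, dist_eq_norm, dist_eq_norm]
    have := hlip v.1 v.2 w.1 w.2
    simpa using this
  obtain ⟨x, hx, hfix, -⟩ := hcon.exists_fixedPoint' Metric.isClosed_closedBall.isComplete hmaps
    (x := r) (Metric.mem_closedBall_self hρ0.le) (edist_ne_top _ _)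
  have hDx := hDpos x hx
  have hfx : t ^ 2 • r + t • E x = D x • x := by
    have h1 : F x = x := hfix
    have h2 : D x • F x = t ^ 2 • r + t • E x := by
      simp only [F]
      rw [smul_smul, mul_inv_cancel₀ hDx.ne', one_smul]
    rw [← h2, h1]
  have hφx : φ x = t := by
    have h1 := congrArg φ hfx
    simp only [map_add, map_smul, smul_eq_mul] at h1
    rw [← ht'] at h1
    have h2 : D x * φ x = D x * t := by
      rw [← h1]
      simp only [D]
      ring
    exact mul_left_cancel₀ hDx.ne' h2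
  refine ⟨x, D x / t, ?_, ?_, ?_⟩
  · have h1 : S x = E x + φ x • r := by simp [E]
    rw [h1, hφx, div_eq_inv_mul, mul_smul, ← hfx, smul_add, smul_smul, smul_smul,
      inv_mul_cancel₀ ht, one_smul, add_comm]
    congr 2
    field_simp
  · rw [Metric.mem_closedBall, dist_eq_norm] at hx
    linarith
  · have h1 : D x / t - t = φ (E x) / t := by
      simp only [D]
      field_simp
      ring
    rw [h1, abs_div, div_lt_iff₀ hta]
    have := hφE x hx
    nlinarith
end Pool.Agent.H14.LT
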