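import Pool.Agent.H14.LT.Hol

set_option autoImplicit false

/-!
# A closed invariant set of pairs which is not empty contains all pairs
-/

namespace Pool.Agent.H14.LT

open Filter Topology

variable {V : Type*} [NormedAddCommGroup V] [NormedSpace ℝ V]

namespace Ctx

variable (C : Ctx V)

/-- The span of the limit cone. -/
def V1 : Submodule ℝ V := Submodule.span ℝ C.Xi

section fin
variable [FiniteDimensional ℝ V]

lemma V1_map {k : V ≃ₗ[ℝ] V} (hk : k ∈ C.G) {v : V} (hv : v ∈ C.V1) : k v ∈ C.V1 := by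
  have h1 : C.V1 ≤ C.V1.comap (k : V →ₗ[ℝ] V) := by
    refine Submodule.span_le.2 fun z hz => ?_
    exact Submodule.subset_span (C.Xi_map hz hk)
  exact h1 hv

lemma L_V1 {x : V} (hx : x ∈ C.L) : x ∈ C.V1 := by
  have hcl : IsClosed (C.V1 : Set V) := C.V1.closed_of_finiteDimensional
  exact closure_minimal (fun z hz => Submodule.subset_span hz) hcl hx.2

end fin

variable {C}

lemma HP.V1_nd {g : V ≃ₗ[ℝ] V} {x y : V} {a : ℝ} (h : C.HP g x y a) {w : V} (hw : w ∈ C.V1)
    (h0 : ∀ v ∈ C.V1, C.B w v = 0) : w = 0 := by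
  by_contra hne
  have := C.pos_pair h.xx h.xy (h0 x (Submodule.subset_span h.xXi))
    (h0 y (Submodule.subset_span h.yXi)) hne
  rw [h0 w hw] at this
  exact lt_irrefl _ this

lemma HP.pr_self {g : V ≃ₗ[ℝ] V} {x y : V} {a : ℝ} (_h : C.HP g x y a) {u : V}
    (hu : u ∈ C.perp x y) : C.pr x y u = u := by
  rw [C.mem_perp] at hu
  rw [C.pr_apply, hu.1, hu.2]
  simp

lemma HP.pr_mem {g : V ≃ₗ[ℝ] V} {x y : V} {a : ℝ} (h : C.HP g x y a) (v : V) :
    C.pr x y v ∈ C.perp x y := C.mem_perp.2 ⟨h.pr_x v, h.pr_y v⟩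

lemma HP.pr_pair {g : V ≃ₗ[ℝ] V} {x y : V} {a : ℝ} (_h : C.HP g x y a) {u : V}
    (hu : u ∈ C.perp x y) (v : V) : C.B u (C.pr x y v) = C.B u v := by
  rw [C.mem_perp] at hu
  rw [C.pr_apply, map_sub, map_sub, map_smul, map_smul, hu.1, hu.2]
  simp

lemma HP.pr_V1 {g : V ≃ₗ[ℝ] V} {x y : V} {a : ℝ} (h : C.HP g x y a) {v : V} (hv : v ∈ C.V1) :
    C.pr x y v ∈ C.V1 := by
  rw [C.pr_apply]
  exact C.V1.sub_mem (C.V1.sub_mem hv (C.V1.smul_mem _ (Submodule.subset_span h.xXi)))
    (C.V1.smul_mem _ (Submodule.subset_span h.yXi))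

/-- The key algebraic inequality. -/
lemma alg_ineq {c n v w : V} (hcc : 0 < C.B c c) (hnn : 0 < C.B n n) {ε : ℝ} {d : V}
    (hn : n = c - ε • d) (hle : C.B (C.rf n (C.rf c v)) w ≤ C.B v w) :
    0 ≤ ε * (C.B c c * (C.B v c * C.B w d - C.B v d * C.B w c)) +
      ε ^ 2 * (C.B v c * C.B w c * C.B d d + C.B c c * C.B v d * C.B w d -
        2 * C.B v c * C.B c d * C.B w d) := by
  have hdc : C.B d c = C.B c d := C.symm _ _
  have hcw : C.B c w = C.B w c := C.symm _ _
  have hdw : C.B d w = C.B w d := C.symm _ _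
  have e1 : C.B n n = C.B c c - 2 * ε * C.B c d + ε ^ 2 * C.B d d := by
    rw [hn]
    simp only [map_sub, map_smul, LinearMap.sub_apply, LinearMap.smul_apply, smul_eq_mul]
    rw [hdc]
    ring
  have e2 : C.B (C.rf c v) n = -C.B v c - ε * C.B v d + 2 * ε * C.B v c * C.B c d / C.B c c := by
    rw [hn, rf]
    simp only [map_sub, map_smul, LinearMap.sub_apply, LinearMap.smul_apply, smul_eq_mul]
    field_simp
    ring
  have e3 : C.B n w = C.B w c - ε * C.B w d := by
    rw [hn]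
    simp only [map_sub, map_smul, LinearMap.sub_apply, LinearMap.smul_apply, smul_eq_mul]
    rw [hcw, hdw]
  have e4 : C.B (C.rf n (C.rf c v)) w = C.B v w - 2 * C.B v c / C.B c c * C.B w c -
      2 * (-C.B v c - ε * C.B v d + 2 * ε * C.B v c * C.B c d / C.B c c) / C.B n n *
        (C.B w c - ε * C.B w d) := by
    have : C.B (C.rf n (C.rf c v)) w = C.B (C.rf c v) w -
        2 * C.B (C.rf c v) n / C.B n n * C.B n w := by
      conv_lhs => rw [rf]
      simp only [map_sub, map_smul, LinearMap.sub_apply, LinearMap.smul_apply, smul_eq_mul]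
    rw [this, e2, e3]
    congr 1
    rw [rf]
    simp only [map_sub, map_smul, LinearMap.sub_apply, LinearMap.smul_apply, smul_eq_mul]
    rw [hcw]
  rw [e4] at hle
  have e5 : 2 * C.B v c / C.B c c * C.B w c +
      2 * (-C.B v c - ε * C.B v d + 2 * ε * C.B v c * C.B c d / C.B c c) / C.B n n *
        (C.B w c - ε * C.B w d) = 2 / (C.B n n * C.B c c) *
      (ε * (C.B c c * (C.B v c * C.B w d - C.B v d * C.B w c)) +
      ε ^ 2 * (C.B v c * C.B w c * C.B d d + C.B c c * C.B v d * C.B w d -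
        2 * C.B v c * C.B c d * C.B w d)) := by
    have hcc' := hcc.ne'
    have hnn' := hnn.ne'
    field_simp
    rw [e1]
    ring
  have e6 : 0 ≤ 2 / (C.B n n * C.B c c) *
      (ε * (C.B c c * (C.B v c * C.B w d - C.B v d * C.B w c)) +
      ε ^ 2 * (C.B v c * C.B w c * C.B d d + C.B c c * C.B v d * C.B w d -
        2 * C.B v c * C.B c d * C.B w d)) := by
    rw [← e5]
    linarith
  have e7 : 0 < 2 / (C.B n n * C.B c c) := by positivity
  exact nonneg_of_mul_nonneg_right e6 e7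

section fin
variable [FiniteDimensional ℝ V]

/-- The key limit argument. -/
lemma alg_lim {c d v w : V} (hcc : 0 < C.B c c) {ε : ℕ → ℝ} {D : ℕ → V} (hε0 : ∀ n, ε n ≠ 0)
    (hε : Tendsto ε atTop (𝓝 0)) (hD : Tendsto D atTop (𝓝 d))
    (h1 : ∀ᶠ n in atTop, C.B (C.rf (c - ε n • D n) (C.rf c v)) w ≤ C.B v w)
    (h2 : ∀ᶠ n in atTop, C.B (C.rf c (C.rf (c - ε n • D n) v)) w ≤ C.B v w) :
    C.B v c * C.B w d = C.B v d * C.B w c := by
  let Q : V → ℝ := fun d => C.B c c * (C.B v c * C.B w d - C.B v d * C.B w c)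
  let R1 : V → ℝ := fun d => C.B v c * C.B w c * C.B d d + C.B c c * C.B v d * C.B w d -
        2 * C.B v c * C.B c d * C.B w d
  let R2 : V → ℝ := fun d => C.B w c * C.B v c * C.B d d + C.B c c * C.B w d * C.B v d -
        2 * C.B w c * C.B c d * C.B v d
  have cont1 : ∀ z : V, Continuous fun u : V => C.B z u := fun z =>
    C.cont' continuous_const continuous_id
  have cont2 : Continuous fun u : V => C.B u u := C.cont' continuous_id continuous_id
  have cQ : Continuous Q := by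
    have := cont1 w
    have := cont1 v
    fun_prop
  have cR1 : Continuous R1 := by
    have := cont1 w
    have := cont1 v
    have := cont1 c
    fun_prop
  have cR2 : Continuous R2 := by
    have := cont1 w
    have := cont1 v
    have := cont1 c
    fun_prop
  have hn : Tendsto (fun n => c - ε n • D n) atTop (𝓝 c) := by
    have := (tendsto_const_nhds (x := c)).sub (hε.smul hD)
    simpa using this
  have hnn : ∀ᶠ n in atTop, 0 < C.B (c - ε n • D n) (c - ε n • D n) :=
    (C.tend hn hn).eventually (lt_mem_nhds hcc)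
  have hle : ∀ᶠ n in atTop, |Q (D n)| ≤ |ε n| * (|R1 (D n)| + |R2 (D n)|) := by
    filter_upwards [h1, h2, hnn] with n k1 k2 k3
    have m1 := alg_ineq hcc k3 rfl k1
    have k2' : C.B (C.rf (c - ε n • D n) (C.rf c w)) v ≤ C.B w v := by
      rw [C.symm w v]
      refine le_trans (le_of_eq ?_) k2
      rw [rf_symm, rf_symm, C.symm]
    have m2 := alg_ineq hcc k3 rfl k2'
    have hq : 0 ≤ ε n * Q (D n) + ε n ^ 2 * R1 (D n) := m1
    have hq2 : 0 ≤ -(ε n * Q (D n)) + ε n ^ 2 * R2 (D n) := by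
      refine le_trans m2 (le_of_eq ?_)
      simp only [Q, R2]
      ring
    have hεp : 0 < |ε n| := abs_pos.2 (hε0 n)
    have h4 : |ε n| * |Q (D n)| ≤ |ε n| * (|ε n| * (|R1 (D n)| + |R2 (D n)|)) := by
      have g0 : |ε n| * (|ε n| * (|R1 (D n)| + |R2 (D n)|)) =
          ε n ^ 2 * (|R1 (D n)| + |R2 (D n)|) := by
        rw [← mul_assoc, ← sq, sq_abs]
      rw [← abs_mul, g0]
      have g1 := le_abs_self (R1 (D n))
      have g2 := le_abs_self (R2 (D n))
      have g3 := abs_nonneg (R1 (D n))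
      have g4 := abs_nonneg (R2 (D n))
      have g5 := sq_nonneg (ε n)
      rw [abs_le]
      constructor
      · nlinarith
      · nlinarith
    exact le_of_mul_le_mul_left h4 hεp
  have hl : Tendsto (fun n => |Q (D n)|) atTop (𝓝 |Q d|) := ((cQ.tendsto d).comp hD).abs
  have hr : Tendsto (fun n => |ε n| * (|R1 (D n)| + |R2 (D n)|)) atTop (𝓝 0) := by
    have := (hε.abs).mul ((((cR1.tendsto d).comp hD).abs).add (((cR2.tendsto d).comp hD).abs))
    simpa using this
  have hfin := le_of_tendsto_of_tendsto hl hr hle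
  have hQ : Q d = 0 := abs_eq_zero.1 (le_antisymm hfin (abs_nonneg _))
  simp only [Q] at hQ
  rcases mul_eq_zero.1 hQ with h | h
  · exact absurd h hcc.ne'
  · linarith

lemma HP.rot_pr {g : V ≃ₗ[ℝ] V} {x y : V} {a : ℝ} (h : C.HP g x y a)
    (hmove : ∀ x ∈ C.Xi, ∃ k ∈ C.G, C.B (k x) x ≠ 0) {Z : Set (V × V)}
    (hZ : C.Inv Z) {v q1 q2 q3 : V} (hz : (y, v) ∈ Z) (hvy : C.B v y = 0)
    (h1 : q1 ∈ C.L) (h2 : q2 ∈ C.L) (h3 : q3 ∈ C.L) (t1 : C.B q1 y = C.B x y)
    (t2 : C.B q2 y = C.B x y) (t3 : C.B q3 y = C.B x y) (h12 : C.pr x y q1 ≠ C.pr x y q2)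
    (h23 : C.pr x y q2 ≠ C.pr x y q3) :
    (y, C.rf (C.pr x y q2 - C.pr x y q3) (C.rf (C.pr x y q1 - C.pr x y q2) v)) ∈ Z := by
  have hyy := h.yy
  have hxy := h.xy
  have dec : ∀ q q' : V, C.B q y = C.B x y → C.B q' y = C.B x y →
      ∃ s : ℝ, q - q' = (C.pr x y q - C.pr x y q') + s • y := by
    intro q q' e1 e2
    refine ⟨C.B q x / C.B x y - C.B q' x / C.B x y, ?_⟩
    rw [C.pr_apply, C.pr_apply, e1, e2]
    module
  have ne : ∀ q q' : V, q ∈ C.L → q' ∈ C.L → C.B q y = C.B x y → C.B q' y = C.B x y →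
      C.pr x y q ≠ C.pr x y q' → C.B q q' ≠ 0 := by
    intro q q' m m' e1 e2 e3 e4
    obtain ⟨s, hs⟩ := dec q q' e1 e2
    have hu : C.pr x y q - C.pr x y q' ∈ C.perp x y := Submodule.sub_mem _ (h.pr_mem _) (h.pr_mem _)
    have hpos := h.pd _ hu (sub_ne_zero.2 e3)
    have e5 : C.B (q - q') (q - q') = C.B (C.pr x y q - C.pr x y q')
        (C.pr x y q - C.pr x y q') := by
      rw [hs, map_add, map_add, map_smul]
      simp only [LinearMap.add_apply, LinearMap.smul_apply, map_smul, smul_eq_mul]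
      rw [hyy, C.symm y, (C.mem_perp.1 hu).2]
      ring
    have e6 : C.B (q - q') (q - q') = 0 := by
      simp only [map_sub, LinearMap.sub_apply]
      rw [C.L_light m, C.L_light m', C.symm q' q, e4]
      ring
    linarith
  have key := rot3 hmove hZ (C.Xi_sub_L h.yXi) hz hvy h1 h2 h3 (by rw [t1]; exact hxy)
    (by rw [t2, t1]) (by rw [t3, t1]) (ne _ _ h1 h2 t1 t2 h12) (ne _ _ h2 h3 t2 t3 h23)
  obtain ⟨s1, hs1⟩ := dec q1 q2 t1 t2
  obtain ⟨s2, hs2⟩ := dec q2 q3 t2 t3
  -- removal of the multiples of `y`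
  have rem : ∀ n u : V, ∀ s : ℝ, C.B n y = 0 → C.B u y = 0 →
      ∃ t : ℝ, C.rf (n + s • y) u = C.rf n u + t • y := by
    intro n u s hn hu
    refine ⟨-(2 * C.B u n / C.B n n) * s, ?_⟩
    have e1 : C.B (n + s • y) (n + s • y) = C.B n n := by
      simp only [map_add, map_smul, LinearMap.add_apply, LinearMap.smul_apply, smul_eq_mul]
      rw [hyy, C.symm y n, hn]
      ring
    have e2 : C.B u (n + s • y) = C.B u n := by
      rw [map_add, map_smul, hu]
      simp
    rw [rf, rf, e1, e2]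
    module
  have mem1 : C.B (C.pr x y q1 - C.pr x y q2) y = 0 := by
    rw [map_sub, LinearMap.sub_apply, h.pr_y, h.pr_y, sub_self]
  have mem2 : C.B (C.pr x y q2 - C.pr x y q3) y = 0 := by
    rw [map_sub, LinearMap.sub_apply, h.pr_y, h.pr_y, sub_self]
  obtain ⟨t1', ht1⟩ := rem _ v s1 mem1 hvy
  set u1 := C.rf (C.pr x y q1 - C.pr x y q2) v with hu1
  have hu1y : C.B u1 y = 0 := by
    rw [hu1, rf, map_sub, map_smul, LinearMap.sub_apply, LinearMap.smul_apply, mem1, hvy]
    simp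
  obtain ⟨t2', ht2⟩ := rem _ u1 s2 mem2 hu1y
  have hlin : ∀ n u : V, ∀ t : ℝ, C.B y n = 0 → C.rf n (u + t • y) = C.rf n u + t • y := by
    intro n u t hn
    simp only [rf, map_add, map_smul, LinearMap.add_apply, LinearMap.smul_apply, smul_eq_mul, hn]
    rw [mul_zero, add_zero]
    abel
  rw [hs1, hs2, ht1, hlin _ _ _ (by
    rw [map_add, map_smul, hyy, C.symm y, mem2]
    simp), ht2] at key
  have h9 := hZ.shift (-(t2' + t1')) _ key
  have h10 : C.rf (C.pr x y q2 - C.pr x y q3) u1 + t2' • y + t1' • y + (-(t2' + t1')) • y =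
      C.rf (C.pr x y q2 - C.pr x y q3) u1 := by module
  simp only at h9
  rwa [h10] at h9

/-- The whole fibre over a hyperbolic fixed point. -/
theorem HP.fibre {g : V ≃ₗ[ℝ] V} {x y : V} {a : ℝ} (h : C.HP g x y a)
    (hmove : ∀ x ∈ C.Xi, ∃ k ∈ C.G, C.B (k x) x ≠ 0) {Z : Set (V × V)}
    (hZ : C.Inv Z) {c0 : ℝ} {v1 w : V} (hv1 : v1 ∈ C.V1) (hv1p : v1 ∈ C.perp x y)
    (hv1c : C.B v1 v1 = c0) (hz : (y, v1) ∈ Z) (hw : w ∈ C.V1) (hwp : w ∈ C.perp x y)
    (hwc : C.B w w = c0) : (y, w) ∈ Z := by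
  -- the compact set
  let K : Set V := {v | v ∈ C.V1 ∧ v ∈ C.perp x y ∧ C.B v v = c0 ∧ (y, v) ∈ Z}
  have hKc : IsClosed K := by
    have k1 : IsClosed {v : V | v ∈ C.V1} := C.V1.closed_of_finiteDimensional
    have k2 : IsClosed {v : V | v ∈ C.perp x y} := (C.perp x y).closed_of_finiteDimensional
    have k3 : IsClosed {v : V | C.B v v = c0} :=
      isClosed_eq (C.cont' continuous_id continuous_id) continuous_const
    have k4 : IsClosed {v : V | (y, v) ∈ Z} :=
      hZ.closed.preimage (continuous_const.prodMk continuous_id)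
    exact k1.inter (k2.inter (k3.inter k4))
  obtain ⟨c, hc, hcb⟩ := C.pd_bound (C.perp x y) h.pd
  have hKb : K ⊆ Metric.closedBall 0 (Real.sqrt (c0 / c)) := by
    intro v hv
    rw [mem_closedBall_zero_iff]
    apply Real.le_sqrt_of_sq_le
    rw [le_div_iff₀ hc]
    have := hcb v hv.2.1
    rw [hv.2.2.1] at this
    linarith
  have : ProperSpace V := FiniteDimensional.proper ℝ V
  have hKcomp : IsCompact K := (isCompact_closedBall _ _).of_isClosed_subset hKc hKb
  obtain ⟨v, hvK, hmax⟩ := hKcomp.exists_isMaxOn ⟨v1, hv1, hv1p, hv1c, hz⟩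
    ((C.cont' continuous_id continuous_const).continuousOn (f := fun v => C.B v w))
  have hmax' : ∀ u ∈ K, C.B u w ≤ C.B v w := fun u hu => hmax hu
  obtain ⟨hvV, hvp, hvc, hvZ⟩ := hvK
  have hvy : C.B v y = 0 := (C.mem_perp.1 hvp).2
  have hwy : C.B w y = 0 := (C.mem_perp.1 hwp).2
  obtain ⟨N, hN, hrec⟩ := h.recseq
  -- the main relation for normalised points
  have main : ∀ b ∈ C.L, ∀ b' ∈ C.L, C.B b y = C.B x y → C.B b' y = C.B x y →
      C.B v b' * C.B w b = C.B v b * C.B w b' := by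
    intro b hb b' hb' e1 e2
    set c := C.pr x y b' with hcdef
    set d := C.pr x y b with hddef
    have hvc' : C.B v c = C.B v b' := h.pr_pair hvp b'
    have hwc' : C.B w c = C.B w b' := h.pr_pair hwp b'
    have hvd : C.B v d = C.B v b := h.pr_pair hvp b
    have hwd : C.B w d = C.B w b := h.pr_pair hwp b
    by_cases hc0' : c = 0
    · rw [← hvc', ← hwc', hc0']
      simp
    have hcp : c ∈ C.perp x y := h.pr_mem b'
    have hcc : 0 < C.B c c := h.pd c hcp hc0'
    have hcV : c ∈ C.V1 := h.pr_V1 (C.L_V1 hb')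
    have hdV : d ∈ C.V1 := h.pr_V1 (C.L_V1 hb)
    let ε : ℕ → ℝ := fun n => (a ^ N n)⁻¹
    let D : ℕ → V := fun n => (g ^ N n) d
    have hε0 : ∀ n, ε n ≠ 0 := fun n => inv_ne_zero (pow_ne_zero _ h.a0)
    have hε : Tendsto ε atTop (𝓝 0) := by
      rw [tendsto_zero_iff_abs_tendsto_zero]
      have h5 := (h.inv_pow_tendsto).comp hN
      refine h5.congr (fun n => ?_)
      simp [ε, Function.comp, abs_inv, abs_pow]
    have hD : Tendsto D atTop (𝓝 d) := hrec d (h.pr_mem b)
    let q : ℕ → V := fun n => (a ^ N n)⁻¹ • (g ^ N n) b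
    have hqL : ∀ n, q n ∈ C.L := fun n => C.L_smul (C.L_map hb (h.powmem _)) (hε0 n)
    have hprx : C.pr x y x = 0 := by
      rw [C.pr_apply, h.xx]
      simp [div_self h.xy]
    have hpry : C.pr x y y = 0 := by
      rw [C.pr_apply, h.yy, C.symm y x]
      simp [div_self h.xy]
    have hqpr : ∀ n, C.pr x y (q n) = ε n • D n := by
      intro n
      have k1 : D n ∈ C.perp x y := h.pow_perp _ (h.pr_mem b)
      simp only [q, ε]
      rw [map_smul, h.pow_apply (N n) b, map_add, map_add, map_smul, map_smul, hprx, hpry,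
        smul_zero, smul_zero, zero_add, zero_add]
      congr 1
      exact h.pr_self k1
    have hqy : ∀ n, C.B (q n) y = C.B x y := by
      intro n
      simp only [q]
      rw [h.pow_apply (N n) b]
      simp only [map_add, map_smul, LinearMap.add_apply, LinearMap.smul_apply, smul_eq_mul]
      have k1 : C.B ((g ^ N n) (C.pr x y b)) y = 0 :=
        (C.mem_perp.1 (h.pow_perp _ (h.pr_mem b))).2
      rw [k1, h.yy, e1]
      have := h.xy
      have := pow_ne_zero (N n) h.a0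
      field_simp
      ring
    have hne : ∀ᶠ n in atTop, c ≠ ε n • D n := by
      have k1 : Tendsto (fun n => ε n • D n) atTop (𝓝 0) := by
        have := hε.smul hD
        simpa using this
      have k2 := k1.eventually_ne (Ne.symm hc0')
      filter_upwards [k2] with n hn hn'
      exact hn hn'.symm
    have hDp : ∀ n, D n ∈ C.perp x y := fun n => h.pow_perp _ (h.pr_mem b)
    have hDV : ∀ n, D n ∈ C.V1 := fun n => C.V1_map (h.powmem _) hdV
    have stay : ∀ m1 m2 : V, m1 ∈ C.V1 → m1 ∈ C.perp x y → m2 ∈ C.V1 → m2 ∈ C.perp x y →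
        (y, C.rf m1 (C.rf m2 v)) ∈ Z → C.B (C.rf m1 (C.rf m2 v)) w ≤ C.B v w := by
      intro m1 m2 k1 k2 k3 k4 k5
      refine hmax' _ ⟨rf_mem _ k1 (rf_mem _ k3 hvV), rf_mem _ k2 (rf_mem _ k4 hvp), ?_, k5⟩
      rw [rf_form, rf_form, hvc]
    have r1 : ∀ᶠ n in atTop, C.B (C.rf (c - ε n • D n) (C.rf c v)) w ≤ C.B v w := by
      filter_upwards [hne] with n hn
      refine stay _ _ (C.V1.sub_mem hcV (C.V1.smul_mem _ (hDV n)))
        ((C.perp x y).sub_mem hcp ((C.perp x y).smul_mem _ (hDp n))) hcV hcp ?_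
      have k1 := h.rot_pr hmove hZ hvZ hvy (C.Xi_sub_L h.xXi) hb' (hqL n) rfl e2 (hqy n)
        (by rw [hprx]; exact Ne.symm hc0') (by rw [hqpr]; exact hn)
      rw [hprx, hqpr, zero_sub, rf_neg] at k1
      exact k1
    have r2 : ∀ᶠ n in atTop, C.B (C.rf c (C.rf (c - ε n • D n) v)) w ≤ C.B v w := by
      filter_upwards [hne] with n hn
      refine stay _ _ hcV hcp (C.V1.sub_mem hcV (C.V1.smul_mem _ (hDV n)))
        ((C.perp x y).sub_mem hcp ((C.perp x y).smul_mem _ (hDp n))) ?_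
      have k1 := h.rot_pr hmove hZ hvZ hvy (hqL n) hb' (C.Xi_sub_L h.xXi) (hqy n) e2 rfl
        (by rw [hqpr]; exact Ne.symm hn) (by rw [hprx]; exact hc0')
      rw [hprx, hqpr, sub_zero, ← rf_neg (ε n • D n - _), neg_sub] at k1
      exact k1
    have fin := alg_lim hcc hε0 hε hD r1 r2
    rw [hvc', hwc', hvd, hwd] at fin
    exact fin
  have main2 : ∀ b ∈ C.L, ∀ b' ∈ C.L, C.B v b' * C.B w b = C.B v b * C.B w b' := by
    have zero : ∀ b ∈ C.L, C.B b y = 0 → C.B v b = 0 ∧ C.B w b = 0 := by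
      intro b hb hby
      obtain ⟨t, -, ht⟩ := C.L_dep (C.Xi_sub_L h.yXi) hb (by rw [C.symm]; exact hby)
      rw [ht, map_smul, map_smul, hvy, hwy]
      simp
    intro b hb b' hb'
    by_cases k1 : C.B b y = 0
    · obtain ⟨z1, z2⟩ := zero b hb k1
      rw [z1, z2]
      ring
    by_cases k2 : C.B b' y = 0
    · obtain ⟨z1, z2⟩ := zero b' hb' k2
      rw [z1, z2]
      ring
    have hxy := h.xy
    have l1 : C.B x y / C.B b y ≠ 0 := div_ne_zero hxy k1
    have l2 : C.B x y / C.B b' y ≠ 0 := div_ne_zero hxy k2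
    have key := main ((C.B x y / C.B b y) • b) (C.L_smul hb l1) ((C.B x y / C.B b' y) • b')
      (C.L_smul hb' l2)
      (by rw [map_smul, LinearMap.smul_apply, smul_eq_mul, div_mul_cancel₀ _ k1])
      (by rw [map_smul, LinearMap.smul_apply, smul_eq_mul, div_mul_cancel₀ _ k2])
    simp only [map_smul, smul_eq_mul] at key
    have key2 : (C.B x y / C.B b y * (C.B x y / C.B b' y)) * (C.B v b' * C.B w b) =
        (C.B x y / C.B b y * (C.B x y / C.B b' y)) * (C.B v b * C.B w b') := by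
      linarith
    exact mul_left_cancel₀ (mul_ne_zero l1 l2) key2
  have main3 : ∀ b ∈ C.V1, ∀ b' ∈ C.V1, C.B v b' * C.B w b = C.B v b * C.B w b' := by
    have s1 : ∀ b ∈ C.V1, ∀ b' ∈ C.L, C.B v b' * C.B w b = C.B v b * C.B w b' := by
      intro b hb b' hb'
      have : C.V1 ≤ LinearMap.ker (C.B v b' • C.B w - C.B w b' • C.B v) := by
        refine Submodule.span_le.2 fun z hz => ?_
        rw [SetLike.mem_coe, LinearMap.mem_ker]
        simp only [LinearMap.sub_apply, LinearMap.smul_apply, smul_eq_mul]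
        rw [main2 z (C.Xi_sub_L hz) b' hb']
        ring
      have h1 := LinearMap.mem_ker.1 (this hb)
      simp only [LinearMap.sub_apply, LinearMap.smul_apply, smul_eq_mul] at h1
      linarith
    intro b hb b' hb'
    have : C.V1 ≤ LinearMap.ker (C.B w b • C.B v - C.B v b • C.B w) := by
      refine Submodule.span_le.2 fun z hz => ?_
      rw [SetLike.mem_coe, LinearMap.mem_ker]
      simp only [LinearMap.sub_apply, LinearMap.smul_apply, smul_eq_mul]
      have := s1 b hb z (C.Xi_sub_L hz)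
      linarith
    have h1 := LinearMap.mem_ker.1 (this hb')
    simp only [LinearMap.sub_apply, LinearMap.smul_apply, smul_eq_mul] at h1
    linarith
  have hsq : C.B v w ^ 2 = c0 ^ 2 := by
    have k1 := main3 w hw v hvV
    rw [hvc, hwc, C.symm w v] at k1
    rw [sq, sq]
    exact k1.symm
  have hdiff : ∀ s : ℝ, s ^ 2 = 1 → C.B v w = s * c0 → w = s • v := by
    intro s hs hvw
    by_contra hne
    have hm : w - s • v ∈ C.perp x y := (C.perp x y).sub_mem hwp ((C.perp x y).smul_mem _ hvp)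
    have hp := h.pd _ hm (sub_ne_zero.2 hne)
    have : C.B (w - s • v) (w - s • v) = 0 := by
      simp only [map_sub, map_smul, LinearMap.sub_apply, LinearMap.smul_apply, smul_eq_mul]
      rw [C.symm w v, hvw, hvc, hwc]
      have : c0 - s * (s * c0) - s * (s * c0 - s * c0) = c0 * (1 - s ^ 2) := by ring
      rw [this, hs]
      ring
    linarith
  rcases sq_eq_sq_iff_eq_or_eq_neg.1 hsq with h1 | h1
  · have := hdiff 1 (by norm_num) (by rw [h1, one_mul])
    rw [this, one_smul]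
    exact hvZ
  · have := hdiff (-1) (by norm_num) (by rw [h1]; ring)
    rw [this, neg_smul, one_smul]
    exact hZ.neg _ hvZ

lemma step_fibre (hmove : ∀ x ∈ C.Xi, ∃ k ∈ C.G, C.B (k x) x ≠ 0) {Z : Set (V × V)}
    (hZ : C.Inv Z) {p q r v : V} (hz : (p, v) ∈ Z) (hp : p ∈ C.L) (hq : q ∈ C.L) (hr : r ∈ C.L)
    (hqp : C.B q p ≠ 0) (hqr : C.B q r ≠ 0) (hvp : C.B v p = 0) :
    (r, (v - (C.B v q / C.B q p) • p) - (C.B (v - (C.B v q / C.B q p) • p) r / C.B q r) • q) ∈ Z ∧
      C.B ((v - (C.B v q / C.B q p) • p) -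
        (C.B (v - (C.B v q / C.B q p) • p) r / C.B q r) • q) r = 0 ∧
      C.B (v - (C.B v q / C.B q p) • p) q = 0 ∧
      C.B ((v - (C.B v q / C.B q p) • p) -
        (C.B (v - (C.B v q / C.B q p) • p) r / C.B q r) • q)
        ((v - (C.B v q / C.B q p) • p) -
        (C.B (v - (C.B v q / C.B q p) • p) r / C.B q r) • q) = C.B v v := by
  have e0 : C.B (v - (C.B v q / C.B q p) • p) q = 0 := by
    rw [map_sub, map_smul, LinearMap.sub_apply, LinearMap.smul_apply, smul_eq_mul, C.symm p q,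
      div_mul_cancel₀ _ hqp, sub_self]
  have e00 : C.B (v - (C.B v q / C.B q p) • p) (v - (C.B v q / C.B q p) • p) = C.B v v := by
    simp only [map_sub, map_smul, LinearMap.sub_apply, LinearMap.smul_apply, smul_eq_mul]
    rw [C.L_light hp, C.symm p v, hvp]
    ring
  have e1 : (p, v - (C.B v q / C.B q p) • p) ∈ Z := by
    have := hZ.shift (-(C.B v q / C.B q p)) _ hz
    rw [neg_smul, ← sub_eq_add_neg] at this
    exact this
  set v' := v - (C.B v q / C.B q p) • p
  refine ⟨hol hmove hZ e1 hq hr (by rw [C.symm]; exact hqp) hqr e0, ?_, e0, ?_⟩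
  · rw [map_sub, map_smul, LinearMap.sub_apply, LinearMap.smul_apply, smul_eq_mul,
      div_mul_cancel₀ _ hqr, sub_self]
  · simp only [map_sub, map_smul, LinearMap.sub_apply, LinearMap.smul_apply, smul_eq_mul]
    rw [C.L_light hq, C.symm q v', e0, e00]
    ring

/-- A closed invariant set of pairs is everything as soon as it is not empty. -/
theorem HP.full {g : V ≃ₗ[ℝ] V} {x y : V} {a : ℝ} (h : C.HP g x y a)
    (hmove : ∀ x ∈ C.Xi, ∃ k ∈ C.G, C.B (k x) x ≠ 0)
    (h3 : ∀ p ∈ C.L, ∀ r ∈ C.L, ∃ q ∈ C.L, C.B q p ≠ 0 ∧ C.B q r ≠ 0) {Z : Set (V × V)}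
    (hZ : C.Inv Z) {c0 : ℝ} {p1 v1 : V} (hp1 : p1 ∈ C.L) (hv1 : v1 ∈ C.V1)
    (hv1p : C.B v1 p1 = 0) (hv1c : C.B v1 v1 = c0) (hz : (p1, v1) ∈ Z) {r w : V} (hr : r ∈ C.L)
    (hw : w ∈ C.V1) (hwr : C.B w r = 0) (hwc : C.B w w = c0) : (r, w) ∈ Z := by
  have hyL := C.Xi_sub_L h.yXi
  have hxL := C.Xi_sub_L h.xXi
  have hyy := h.yy
  -- the fibre over `y` is not empty
  obtain ⟨v2, hv2V, hv2p, hv2c, hv2Z⟩ : ∃ v2, v2 ∈ C.V1 ∧ v2 ∈ C.perp x y ∧ C.B v2 v2 = c0 ∧
      (y, v2) ∈ Z := by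
    obtain ⟨q, hq, hqp, hqy⟩ := h3 p1 hp1 y hyL
    obtain ⟨e1, e2, -, e4⟩ := step_fibre hmove hZ hz hp1 hq hyL hqp hqy hv1p
    set v' := (v1 - (C.B v1 q / C.B q p1) • p1) -
        (C.B (v1 - (C.B v1 q / C.B q p1) • p1) y / C.B q y) • q with hv'
    have hv'V : v' ∈ C.V1 := C.V1.sub_mem (C.V1.sub_mem hv1 (C.V1.smul_mem _ (C.L_V1 hp1)))
      (C.V1.smul_mem _ (C.L_V1 hq))
    have e5 := hZ.shift (-(C.B v' x / C.B x y)) _ e1
    refine ⟨v' + (-(C.B v' x / C.B x y)) • y, C.V1.add_mem hv'V (C.V1.smul_mem _ (C.L_V1 hyL)),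
      C.mem_perp.2 ⟨?_, ?_⟩, ?_, e5⟩
    · rw [map_add, map_smul, LinearMap.add_apply, LinearMap.smul_apply, smul_eq_mul, C.symm y x]
      have := h.xy
      field_simp
      ring
    · rw [map_add, map_smul, LinearMap.add_apply, LinearMap.smul_apply, smul_eq_mul, hyy, e2]
      ring
    · simp only [map_add, map_smul, LinearMap.add_apply, LinearMap.smul_apply, smul_eq_mul]
      rw [hyy, C.symm y v', e2, e4, hv1c]
      ring
  have fib := fun (u : V) (hu : u ∈ C.V1) (hup : u ∈ C.perp x y) (huc : C.B u u = c0) =>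
    h.fibre hmove hZ hv2V hv2p hv2c hv2Z hu hup huc
  have fib' : ∀ u ∈ C.V1, C.B u y = 0 → C.B u u = c0 → (y, u) ∈ Z := by
    intro u hu huy huc
    have k1 := fib (u - (C.B u x / C.B x y) • y)
      (C.V1.sub_mem hu (C.V1.smul_mem _ (C.L_V1 hyL))) (C.mem_perp.2 ⟨by
        rw [map_sub, map_smul, LinearMap.sub_apply, LinearMap.smul_apply, smul_eq_mul,
          C.symm y x, div_mul_cancel₀ _ h.xy, sub_self], by
        rw [map_sub, map_smul, LinearMap.sub_apply, LinearMap.smul_apply, smul_eq_mul, hyy, huy]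
        ring⟩) (by
        simp only [map_sub, map_smul, LinearMap.sub_apply, LinearMap.smul_apply, smul_eq_mul]
        rw [hyy, C.symm y u, huy, huc]
        ring)
    have k2 := hZ.shift (C.B u x / C.B x y) _ k1
    simp only [sub_add_cancel] at k2
    exact k2
  obtain ⟨q, hq, hqy, hqr⟩ := h3 y hyL r hr
  -- the vector over `y` corresponding to `w`
  set w' := w - (C.B w q / C.B q r) • r with hw'
  have hw'q : C.B w' q = 0 := by
    rw [hw', map_sub, map_smul, LinearMap.sub_apply, LinearMap.smul_apply, smul_eq_mul,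
      C.symm r q, div_mul_cancel₀ _ hqr, sub_self]
  have hw'r : C.B w' r = 0 := by
    rw [hw', map_sub, map_smul, LinearMap.sub_apply, LinearMap.smul_apply, smul_eq_mul, hwr,
      C.L_light hr]
    ring
  have hw'c : C.B w' w' = c0 := by
    rw [hw']
    simp only [map_sub, map_smul, LinearMap.sub_apply, LinearMap.smul_apply, smul_eq_mul]
    rw [C.L_light hr, C.symm r w, hwr, hwc]
    ring
  have hw'V : w' ∈ C.V1 := C.V1.sub_mem hw (C.V1.smul_mem _ (C.L_V1 hr))
  set u := w' - (C.B w' y / C.B q y) • q with hu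
  have huq : C.B u q = 0 := by
    rw [hu, map_sub, map_smul, LinearMap.sub_apply, LinearMap.smul_apply, smul_eq_mul, hw'q,
      C.L_light hq]
    ring
  have huy : C.B u y = 0 := by
    rw [hu, map_sub, map_smul, LinearMap.sub_apply, LinearMap.smul_apply, smul_eq_mul,
      div_mul_cancel₀ _ hqy, sub_self]
  have huc : C.B u u = c0 := by
    rw [hu]
    simp only [map_sub, map_smul, LinearMap.sub_apply, LinearMap.smul_apply, smul_eq_mul]
    rw [C.L_light hq, C.symm q w', hw'q, hw'c]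
    ring
  have huV : u ∈ C.V1 := C.V1.sub_mem hw'V (C.V1.smul_mem _ (C.L_V1 hq))
  have huZ := fib' u huV huy huc
  have k1 := Ctx.hol hmove hZ huZ hq hr (by rw [C.symm]; exact hqy) hqr huq
  have k2 : u - (C.B u r / C.B q r) • q = w' := by
    have : C.B u r = -(C.B w' y / C.B q y) * C.B q r := by
      rw [hu, map_sub, map_smul, LinearMap.sub_apply, LinearMap.smul_apply, smul_eq_mul, hw'r]
      ring
    rw [this, mul_div_assoc, div_self hqr, mul_one, hu]
    module
  rw [k2] at k1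
  have k3 := hZ.shift (C.B w q / C.B q r) _ k1
  simp only [hw', sub_add_cancel] at k3
  exact k3

end fin

end Ctx

end Pool.Agent.H14.LT
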