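import Pool.Agent.H14.LT.Dens

set_option autoImplicit false

/-!
# Closed invariant sets of pairs `(p, v)`, `v ⊥ p`, and holonomy
-/

namespace Pool.Agent.H14.LT

open Filter Topology

variable {V : Type*} [NormedAddCommGroup V] [NormedSpace ℝ V]

namespace Ctx

variable (C : Ctx V)

/-- Closed invariant sets of pairs. -/
structure Inv (Z : Set (V × V)) : Prop where
  closed : IsClosed Z
  map : ∀ k ∈ C.G, ∀ z ∈ Z, (k z.1, k z.2) ∈ Z
  scale : ∀ s : ℝ, s ≠ 0 → ∀ z ∈ Z, (s • z.1, z.2) ∈ Z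
  shift : ∀ t : ℝ, ∀ z ∈ Z, (z.1, z.2 + t • z.1) ∈ Z
  neg : ∀ z ∈ Z, (z.1, -z.2) ∈ Z

variable {C}

section fin
variable [FiniteDimensional ℝ V]

/-- Sequences of good powers of a hyperbolic element. -/
lemma HP.recseq {g : V ≃ₗ[ℝ] V} {x y : V} {a : ℝ} (h : C.HP g x y a) :
    ∃ N : ℕ → ℕ, Tendsto N atTop atTop ∧ ∀ u ∈ C.perp x y,
      Tendsto (fun n => (g ^ N n) u) atTop (𝓝 u) := by
  choose N hN1 hN2 using fun n : ℕ => h.recur (1 / ((n : ℝ) + 1)) (by positivity) n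
  refine ⟨N, tendsto_atTop_mono hN1 tendsto_id, fun u hu => ?_⟩
  rw [tendsto_iff_norm_sub_tendsto_zero]
  refine squeeze_zero (fun _ => norm_nonneg _) (fun n => hN2 n u hu) ?_
  have := (tendsto_one_div_add_atTop_nhds_zero_nat (𝕜 := ℝ)).mul_const ‖u‖
  simpa using this

lemma HP.hol {g : V ≃ₗ[ℝ] V} {r q : V} {a : ℝ} (h : C.HP g r q a) {Z : Set (V × V)}
    (hZ : C.Inv Z) {p v : V} (hz : (p, v) ∈ Z) (hpq : C.B p q ≠ 0) (hvq : C.B v q = 0) :
    (r, v - (C.B v r / C.B q r) • q) ∈ Z := by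
  obtain ⟨N, hN, hrec⟩ := h.recseq
  have h1 : Tendsto (fun n => (a ^ N n)⁻¹ • (g ^ N n) p) atTop (𝓝 ((C.B p q / C.B r q) • r)) :=
    (h.attract p).comp hN
  have hpr : C.pr r q v = v - (C.B v r / C.B q r) • q := by
    rw [C.pr_apply, hvq, zero_div, zero_smul, sub_zero, C.symm r q]
  have h2 : Tendsto (fun n => (g ^ N n) v) atTop (𝓝 (C.pr r q v)) := by
    have h3 : ∀ n, (g ^ N n) v = (C.B v r / C.B r q * (a ^ N n)⁻¹) • q +
        (g ^ N n) (C.pr r q v) := by
      intro n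
      rw [h.pow_apply (N n) v, hvq]
      simp
    have h4 : Tendsto (fun n => (a ^ N n)⁻¹) atTop (𝓝 (0 : ℝ)) := by
      rw [tendsto_zero_iff_abs_tendsto_zero]
      have h5 := (h.inv_pow_tendsto).comp hN
      refine h5.congr (fun n => ?_)
      simp [Function.comp, abs_inv, abs_pow]
    have h6 := (((h4.const_mul (C.B v r / C.B r q)).smul_const q).add
      (hrec (C.pr r q v) (C.mem_perp.2 ⟨h.pr_x v, h.pr_y v⟩)))
    simp only [mul_zero, zero_smul, zero_add] at h6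
    exact h6.congr (fun n => (h3 n).symm)
  have h7 : ((C.B p q / C.B r q) • r, C.pr r q v) ∈ Z := by
    refine hZ.closed.mem_of_tendsto (h1.prodMk_nhds h2) (Eventually.of_forall fun n => ?_)
    exact hZ.scale _ (inv_ne_zero (pow_ne_zero _ h.a0)) _ (hZ.map _ (h.powmem _) _ hz)
  have h8 := hZ.scale (C.B p q / C.B r q)⁻¹ (inv_ne_zero (div_ne_zero hpq h.xy)) _ h7
  simp only [smul_smul] at h8
  rw [inv_mul_cancel₀ (div_ne_zero hpq h.xy), one_smul, hpr] at h8
  exact h8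

/-- Closed invariant sets are closed under holonomy. -/
theorem hol (hmove : ∀ x ∈ C.Xi, ∃ k ∈ C.G, C.B (k x) x ≠ 0) {Z : Set (V × V)}
    (hZ : C.Inv Z) {p v q r : V} (hz : (p, v) ∈ Z) (hq : q ∈ C.L) (hr : r ∈ C.L)
    (hpq : C.B p q ≠ 0) (hqr : C.B q r ≠ 0) (hvq : C.B v q = 0) :
    (r, v - (C.B v r / C.B q r) • q) ∈ Z := by
  -- the value as a continuous function of the pair
  let F : V × V → V × V := fun w =>
    (w.2, (v + (-(C.B v w.1 / C.B p w.1)) • p) -
      (C.B (v + (-(C.B v w.1 / C.B p w.1)) • p) w.2 / C.B w.1 w.2) • w.1)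
  have hF : ContinuousAt F (q, r) := by
    have c1 : ContinuousAt (fun w : V × V => C.B v w.1) (q, r) :=
      (C.cont' continuous_const continuous_fst).continuousAt
    have c2 : ContinuousAt (fun w : V × V => C.B p w.1) (q, r) :=
      (C.cont' continuous_const continuous_fst).continuousAt
    have c3 : ContinuousAt (fun w : V × V => C.B w.1 w.2) (q, r) :=
      (C.cont' continuous_fst continuous_snd).continuousAt
    have c4 : ContinuousAt (fun w : V × V => v + (-(C.B v w.1 / C.B p w.1)) • p) (q, r) :=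
      continuousAt_const.add (((c1.div c2 hpq).neg).smul continuousAt_const)
    have c5 : ContinuousAt (fun w : V × V =>
        C.B (v + (-(C.B v w.1 / C.B p w.1)) • p) w.2) (q, r) :=
      C.tend c4 continuousAt_snd
    exact continuousAt_snd.prodMk (c4.sub ((c5.div c3 hqr).smul continuousAt_fst))
  have hFqr : F (q, r) = (r, v - (C.B v r / C.B q r) • q) := by
    simp only [F, hvq, zero_div, neg_zero, zero_smul, add_zero]
  rw [← hFqr, ← hZ.closed.closure_eq, mem_closure_iff_nhds]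
  intro O hO
  have h1 : ∀ᶠ w : V × V in 𝓝 (q, r), F w ∈ O := hF.eventually_mem hO
  have h2 : ∀ᶠ w : V × V in 𝓝 (q, r), C.B p w.1 ≠ 0 :=
    ((C.cont' continuous_const continuous_fst).continuousAt (x := (q, r))).eventually_ne hpq
  obtain ⟨W, hW, hWo, hWm⟩ := eventually_nhds_iff.1 (h1.and h2)
  obtain ⟨A, A', hAo, hA'o, hqA, hrA', hAA⟩ := isOpen_prod_iff.1 hWo q r hWm
  obtain ⟨g, r', q', a, h, hq', hr'⟩ := dens hmove hq hr hqr (hAo.mem_nhds hqA)
    (hA'o.mem_nhds hrA')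
  have h3 := hW (q', r') (hAA ⟨hq', hr'⟩)
  refine ⟨F (q', r'), h3.1, ?_⟩
  refine h.hol hZ (hZ.shift (-(C.B v q' / C.B p q')) _ hz) h3.2 ?_
  rw [map_add, map_smul, LinearMap.add_apply, LinearMap.smul_apply, smul_eq_mul]
  have := h3.2
  simp only at this
  field_simp
  ring

end fin

/-- The reflection in `n`. -/
noncomputable def rf (C : Ctx V) (n v : V) : V := v - (2 * C.B v n / C.B n n) • n

lemma rf_form (n v w : V) : C.B (C.rf n v) (C.rf n w) = C.B v w := by
  by_cases h : C.B n n = 0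
  · simp [rf, h]
  · simp only [rf, map_sub, map_smul, LinearMap.sub_apply, LinearMap.smul_apply, smul_eq_mul]
    rw [C.symm n w]
    field_simp
    ring

lemma rf_symm (n v w : V) : C.B (C.rf n v) w = C.B v (C.rf n w) := by
  simp only [rf, map_sub, map_smul, LinearMap.sub_apply, LinearMap.smul_apply, smul_eq_mul]
  rw [C.symm n w]
  ring

lemma rf_neg (n v : V) : C.rf (-n) v = C.rf n v := by
  simp only [rf, map_neg, LinearMap.neg_apply, smul_neg, neg_neg]
  rw [mul_neg, neg_div, neg_smul, sub_neg_eq_add, sub_eq_add_neg, ← neg_smul]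

lemma rf_mem (E : Submodule ℝ V) {n v : V} (hn : n ∈ E) (hv : v ∈ E) : C.rf n v ∈ E :=
  E.sub_mem hv (E.smul_mem _ hn)

section fin
variable [FiniteDimensional ℝ V]

/-- The rotation defined by three limit points. -/
theorem rot3 (hmove : ∀ x ∈ C.Xi, ∃ k ∈ C.G, C.B (k x) x ≠ 0) {Z : Set (V × V)}
    (hZ : C.Inv Z) {y v q1 q2 q3 : V} (hy : y ∈ C.L) (hz : (y, v) ∈ Z) (hvy : C.B v y = 0)
    (h1 : q1 ∈ C.L) (h2 : q2 ∈ C.L) (h3 : q3 ∈ C.L) (t1 : C.B q1 y ≠ 0)
    (t2 : C.B q2 y = C.B q1 y) (t3 : C.B q3 y = C.B q1 y) (h12 : C.B q1 q2 ≠ 0)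
    (h23 : C.B q2 q3 ≠ 0) : (y, C.rf (q2 - q3) (C.rf (q1 - q2) v)) ∈ Z := by
  set τ := C.B q1 y with hτ
  have hyy := C.L_light hy
  have h11 := C.L_light h1
  have h22 := C.L_light h2
  have h33 := C.L_light h3
  have hy1 : C.B y q1 = τ := by rw [C.symm]
  have hy2 : C.B y q2 = τ := by rw [C.symm, t2]
  have hy3 : C.B y q3 = τ := by rw [C.symm, t3]
  have h21 : C.B q2 q1 = C.B q1 q2 := C.symm _ _
  have h32 : C.B q3 q2 = C.B q2 q3 := C.symm _ _
  -- first leg
  set v0 := v + (-(C.B v q1 / τ)) • y with hv0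
  have hv0Z : (y, v0) ∈ Z := hZ.shift _ _ hz
  have hv0q1 : C.B v0 q1 = 0 := by
    rw [hv0, map_add, map_smul, LinearMap.add_apply, LinearMap.smul_apply, smul_eq_mul, hy1]
    field_simp
    ring
  have hv0y : C.B v0 y = 0 := by
    rw [hv0, map_add, map_smul, LinearMap.add_apply, LinearMap.smul_apply, smul_eq_mul, hyy, hvy]
    ring
  have e1 := hol hmove hZ hv0Z h1 h2 (by rw [hy1]; exact t1) h12 hv0q1
  set w1 := v0 - (C.B v0 q2 / C.B q1 q2) • (q1 - q2) with hw1
  have e2 : (q2, w1) ∈ Z := by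
    have := hZ.shift (C.B v0 q2 / C.B q1 q2) _ e1
    have h4 : w1 = v0 - (C.B v0 q2 / C.B q1 q2) • q1 + (C.B v0 q2 / C.B q1 q2) • q2 := by
      rw [hw1, smul_sub]
      abel
    rw [h4]
    exact this
  have hw1r : C.rf (q1 - q2) v0 = w1 := by
    rw [rf, hw1]
    congr 2
    simp only [map_sub, LinearMap.sub_apply]
    rw [h11, h22, h21, hv0q1]
    have h5 : 2 * (0 - C.B v0 q2) = -2 * C.B v0 q2 := by ring
    have h6 : 0 - C.B q1 q2 - (C.B q1 q2 - 0) = -2 * C.B q1 q2 := by ring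
    rw [h5, h6, mul_div_mul_left _ _ (by norm_num : (-2 : ℝ) ≠ 0)]
  have hw1q2 : C.B w1 q2 = 0 := by
    rw [hw1, map_sub, map_smul, map_sub]
    simp only [LinearMap.sub_apply, LinearMap.smul_apply, smul_eq_mul]
    rw [h22]
    field_simp
    ring
  have hw1y : C.B w1 y = 0 := by
    rw [hw1, map_sub, map_smul, map_sub]
    simp only [LinearMap.sub_apply, LinearMap.smul_apply, smul_eq_mul]
    rw [hv0y, t2, ← hτ]
    ring
  -- second leg
  set w2 := w1 + (-(C.B w1 q3 / C.B q2 q3)) • q2 with hw2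
  have e3 : (q2, w2) ∈ Z := hZ.shift _ _ e2
  have hw2q3 : C.B w2 q3 = 0 := by
    rw [hw2, map_add, map_smul, LinearMap.add_apply, LinearMap.smul_apply, smul_eq_mul]
    field_simp
    ring
  have hw2y : C.B w2 y = -(C.B w1 q3 / C.B q2 q3) * τ := by
    rw [hw2, map_add, map_smul, LinearMap.add_apply, LinearMap.smul_apply, smul_eq_mul, hw1y, t2]
    ring
  have e4 := hol hmove hZ e3 h3 hy h23 (by rw [t3]; exact t1) hw2q3
  have e5 : w2 - (C.B w2 y / C.B q3 y) • q3 = C.rf (q2 - q3) w1 := by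
    rw [hw2y, t3, hw2, rf]
    have h5 : C.B (q2 - q3) (q2 - q3) = -2 * C.B q2 q3 := by
      simp only [map_sub, LinearMap.sub_apply]
      rw [h22, h33, h32]
      ring
    have h6 : C.B w1 (q2 - q3) = -C.B w1 q3 := by
      rw [map_sub, hw1q2]
      ring
    rw [h5, h6]
    have h7 : 2 * -C.B w1 q3 / (-2 * C.B q2 q3) = C.B w1 q3 / C.B q2 q3 := by
      field_simp
    have h8 : -(C.B w1 q3 / C.B q2 q3) * τ / τ = -(C.B w1 q3 / C.B q2 q3) := by
      field_simp
    rw [h7, h8]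
    module
  rw [e5, ← hw1r] at e4
  -- compare with the original vector
  have h9 := hZ.shift (C.B v q1 / τ) _ e4
  have h10 : ∀ n : V, C.B y n = 0 → ∀ s : ℝ, ∀ u, C.rf n (u + s • y) = C.rf n u + s • y := by
    intro n hn s u
    simp only [rf, map_add, map_smul, LinearMap.add_apply, LinearMap.smul_apply, smul_eq_mul, hn]
    rw [mul_zero, add_zero]
    abel
  have h11 : C.B y (q1 - q2) = 0 := by rw [map_sub, hy1, hy2, sub_self]
  have h12 : C.B y (q2 - q3) = 0 := by rw [map_sub, hy2, hy3, sub_self]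
  simp only at h9
  rw [← h10 _ h12, ← h10 _ h11] at h9
  have h13 : v0 + (C.B v q1 / τ) • y = v := by
    rw [hv0, neg_smul]
    abel
  rwa [h13] at h9

end fin

end Ctx

end Pool.Agent.H14.LT
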