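import Pool.Agent.H14.LT.Basic
import Pool.Agent.H14.LT.Eig

set_option autoImplicit false

/-!
# Hyperbolic isometries
-/

namespace Pool.Agent.H14.LT

open Filter Topology

variable {V : Type*} [NormedAddCommGroup V] [NormedSpace ℝ V]

namespace Ctx

variable (C : Ctx V)

/-- The eigenvectors of the elements of the group with eigenvalues of modulus greater than `1`. -/
def Xi : Set V := {x | x ≠ 0 ∧ ∃ g ∈ C.G, ∃ a : ℝ, 1 < |a| ∧ g x = a • x}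

/-- The element `g` is hyperbolic with the attracting eigenvector `x`, the repelling eigenvector
`y` and the eigenvalues `a`, `a⁻¹`. -/
structure HP (g : V ≃ₗ[ℝ] V) (x y : V) (a : ℝ) : Prop where
  mem : g ∈ C.G
  x0 : x ≠ 0
  y0 : y ≠ 0
  big : 1 < |a|
  gx : g x = a • x
  gy : g y = a⁻¹ • y

variable {C}

namespace HP

variable {g : V ≃ₗ[ℝ] V} {x y : V} {a : ℝ}

lemma a0 (h : C.HP g x y a) : a ≠ 0 := by
  rintro rfl
  have := h.big
  simp at this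
  linarith

lemma swap (h : C.HP g x y a) : C.HP g⁻¹ y x a where
  mem := C.G.inv_mem h.mem
  x0 := h.y0
  y0 := h.x0
  big := h.big
  gx := by
    have h1 : y = g⁻¹ (g y) := (LinearEquiv.symm_apply_apply g y).symm
    rw [h.gy, map_smul] at h1
    have h2 := congrArg (fun z => a • z) h1
    simp only [smul_smul, mul_inv_cancel₀ h.a0, one_smul] at h2
    exact h2.symm
  gy := by
    have h1 : x = g⁻¹ (g x) := (LinearEquiv.symm_apply_apply g x).symm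
    rw [h.gx, map_smul] at h1
    have h2 := congrArg (fun z => a⁻¹ • z) h1
    simp only [smul_smul, inv_mul_cancel₀ h.a0, one_smul] at h2
    exact h2.symm

lemma sq_ne (h : C.HP g x y a) : a * a ≠ 1 := by
  intro h1
  have h2 : |a| * |a| = 1 := by rw [← abs_mul, h1, abs_one]
  nlinarith [h.big]

lemma xx (h : C.HP g x y a) : C.B x x = 0 := by
  have h1 := C.inv g h.mem x x
  rw [h.gx] at h1
  simp only [map_smul, LinearMap.smul_apply, smul_eq_mul] at h1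
  have h2 : (a * a - 1) * C.B x x = 0 := by linarith
  rcases mul_eq_zero.1 h2 with h3 | h3
  · exact absurd (by linarith) h.sq_ne
  · exact h3

lemma yy (h : C.HP g x y a) : C.B y y = 0 := h.swap.xx

lemma xy (h : C.HP g x y a) : C.B x y ≠ 0 := by
  apply C.light_ne h.xx h.x0 h.yy
  rintro t rfl
  have h1 := h.gy
  rw [map_smul, h.gx] at h1
  have ht : t ≠ 0 := by
    rintro rfl
    exact h.y0 (zero_smul _ _)
  have h2 : (t * a - a⁻¹ * t) • x = 0 := by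
    rw [sub_smul, mul_smul, mul_smul, h1, sub_self]
  rcases smul_eq_zero.1 h2 with h3 | h3
  · have h4 : t * (a - a⁻¹) = 0 := by linarith
    rcases mul_eq_zero.1 h4 with h5 | h5
    · exact ht h5
    · apply h.sq_ne
      have h6 : a = a⁻¹ := by linarith
      calc a * a = a * a⁻¹ := by rw [← h6]
        _ = 1 := mul_inv_cancel₀ h.a0
  · exact h.x0 h3

lemma yx (h : C.HP g x y a) : C.B y x ≠ 0 := by rw [C.symm]; exact h.xy

lemma xXi (h : C.HP g x y a) : x ∈ C.Xi := ⟨h.x0, g, h.mem, a, h.big, h.gx⟩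

lemma yXi (h : C.HP g x y a) : y ∈ C.Xi := h.swap.xXi

lemma pow_x (h : C.HP g x y a) (N : ℕ) : (g ^ N) x = a ^ N • x := by
  induction N with
  | zero => simp
  | succ N ih =>
      rw [pow_succ', LinearEquiv.mul_apply, ih, map_smul, h.gx, smul_smul, pow_succ]

lemma pow_y (h : C.HP g x y a) (N : ℕ) : (g ^ N) y = (a ^ N)⁻¹ • y := by
  induction N with
  | zero => simp
  | succ N ih =>
      rw [pow_succ', LinearEquiv.mul_apply, ih, map_smul, h.gy, smul_smul, pow_succ, mul_inv]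

lemma powmem (h : C.HP g x y a) (N : ℕ) : g ^ N ∈ C.G := C.G.pow_mem h.mem N

end HP

variable (C)

/-- The projection to the orthogonal complement of `x` and `y` (light-like, `B x y ≠ 0`). -/
noncomputable def pr (x y : V) : V →ₗ[ℝ] V :=
  LinearMap.id - ((C.B x y)⁻¹ • C.B.flip y).smulRight x - ((C.B x y)⁻¹ • C.B.flip x).smulRight y

lemma pr_apply (x y v : V) :
    C.pr x y v = v - (C.B v y / C.B x y) • x - (C.B v x / C.B x y) • y := by
  simp [pr, div_eq_inv_mul]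

/-- The orthogonal complement of `x` and `y`. -/
def perp (x y : V) : Submodule ℝ V := LinearMap.ker (C.B.flip x) ⊓ LinearMap.ker (C.B.flip y)

lemma mem_perp {x y v : V} : v ∈ C.perp x y ↔ C.B v x = 0 ∧ C.B v y = 0 := by
  simp [perp]

variable {C}

namespace HP

variable {g : V ≃ₗ[ℝ] V} {x y : V} {a : ℝ}

lemma pr_x (h : C.HP g x y a) (v : V) : C.B (C.pr x y v) x = 0 := by
  rw [C.pr_apply]
  simp only [map_sub, map_smul, LinearMap.sub_apply, LinearMap.smul_apply, smul_eq_mul]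
  rw [h.xx, C.symm y x, div_mul_cancel₀ _ h.xy]
  ring

lemma pr_y (h : C.HP g x y a) (v : V) : C.B (C.pr x y v) y = 0 := by
  rw [C.pr_apply]
  simp only [map_sub, map_smul, LinearMap.sub_apply, LinearMap.smul_apply, smul_eq_mul]
  rw [h.yy, div_mul_cancel₀ _ h.xy]
  ring

lemma pow_apply (h : C.HP g x y a) (N : ℕ) (v : V) : (g ^ N) v =
    (C.B v y / C.B x y * a ^ N) • x + (C.B v x / C.B x y * (a ^ N)⁻¹) • y +
      (g ^ N) (C.pr x y v) := by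
  have h1 : v = (C.B v y / C.B x y) • x + (C.B v x / C.B x y) • y + C.pr x y v := by
    rw [C.pr_apply]
    abel
  conv_lhs => rw [h1]
  rw [map_add, map_add, map_smul, map_smul, h.pow_x, h.pow_y, smul_smul, smul_smul]

lemma pow_perp (h : C.HP g x y a) (N : ℕ) {u : V} (hu : u ∈ C.perp x y) :
    (g ^ N) u ∈ C.perp x y := by
  rw [mem_perp] at hu ⊢
  have hN := h.powmem N
  constructor
  · have h1 := C.inv _ hN u x
    rw [h.pow_x, map_smul, smul_eq_mul, hu.1] at h1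
    exact (mul_eq_zero.1 h1).resolve_left (pow_ne_zero _ h.a0)
  · have h1 := C.inv _ hN u y
    rw [h.pow_y, map_smul, smul_eq_mul, hu.2] at h1
    exact (mul_eq_zero.1 h1).resolve_left (inv_ne_zero (pow_ne_zero _ h.a0))

lemma pd (h : C.HP g x y a) : ∀ v ∈ C.perp x y, v ≠ 0 → 0 < C.B v v := by
  intro v hv hv0
  rw [mem_perp] at hv
  exact C.pos_pair h.xx h.xy hv.1 hv.2 hv0

section fin
variable [FiniteDimensional ℝ V]

lemma bdd (h : C.HP g x y a) : ∃ K : ℝ, 0 < K ∧ ∀ k ∈ C.G, ∀ u ∈ C.perp x y,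
    k u ∈ C.perp x y → ‖k u‖ ≤ K * ‖u‖ := by
  obtain ⟨c, hc, hcb⟩ := C.pd_bound (C.perp x y) h.pd
  obtain ⟨c', hc', hcb'⟩ := C.quad_bound
  refine ⟨Real.sqrt (c' / c), by positivity, fun k hk u hu hku => ?_⟩
  have h1 := hcb _ hku
  rw [C.inv k hk] at h1
  have h2 : C.B u u ≤ c' * ‖u‖ * ‖u‖ := (le_abs_self _).trans (hcb' u u)
  have h3 : ‖k u‖ ^ 2 ≤ c' / c * ‖u‖ ^ 2 := by
    rw [div_mul_eq_mul_div, le_div_iff₀ hc]
    nlinarith
  have h4 : ‖k u‖ ≤ Real.sqrt (c' / c * ‖u‖ ^ 2) := Real.le_sqrt_of_sq_le h3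
  rwa [Real.sqrt_mul (by positivity), Real.sqrt_sq (norm_nonneg _)] at h4

lemma bddpow (h : C.HP g x y a) : ∃ K : ℝ, 0 < K ∧ ∀ N : ℕ, ∀ u ∈ C.perp x y,
    ‖(g ^ N) u‖ ≤ K * ‖u‖ ∧ ‖((g⁻¹) ^ N) u‖ ≤ K * ‖u‖ := by
  obtain ⟨K, hK, hb⟩ := h.bdd
  refine ⟨K, hK, fun N u hu => ⟨hb _ (h.powmem N) u hu (h.pow_perp N hu), ?_⟩⟩
  have hu' : u ∈ C.perp y x := by rw [mem_perp] at hu ⊢; exact ⟨hu.2, hu.1⟩
  have := h.swap.pow_perp N hu'
  rw [mem_perp] at this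
  exact hb _ (h.swap.powmem N) u hu (C.mem_perp.2 ⟨this.2, this.1⟩)

/-- The rate of attraction. -/
lemma rate (h : C.HP g x y a) : ∃ K : ℝ, 0 < K ∧ ∀ (N : ℕ) (v : V),
    ‖(a ^ N)⁻¹ • (g ^ N) v - (C.B v y / C.B x y) • x‖ ≤ K * (|a| ^ N)⁻¹ * ‖v‖ := by
  obtain ⟨K, hK, hb⟩ := h.bddpow
  obtain ⟨c', hc', hcb'⟩ := C.quad_bound
  have hD : 0 < |C.B x y| := abs_pos.2 h.xy
  obtain ⟨M, hM0, hM⟩ : ∃ M : ℝ, 0 < M ∧ ∀ v, ‖C.pr x y v‖ ≤ M * ‖v‖ := by
    refine ⟨‖(C.pr x y).toContinuousLinearMap‖ + 1, by positivity, fun v => ?_⟩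
    have h1 := (C.pr x y).toContinuousLinearMap.le_opNorm v
    have h2 : 0 ≤ ‖v‖ := norm_nonneg v
    have h3 : ‖C.pr x y v‖ ≤ ‖(C.pr x y).toContinuousLinearMap‖ * ‖v‖ := h1
    nlinarith
  refine ⟨c' * ‖x‖ / |C.B x y| * ‖y‖ + K * M, by positivity, fun N v => ?_⟩
  have ha := h.a0
  have haN : a ^ N ≠ 0 := pow_ne_zero _ ha
  have h1 : (a ^ N)⁻¹ • (g ^ N) v - (C.B v y / C.B x y) • x =
      ((a ^ N)⁻¹ * (C.B v x / C.B x y * (a ^ N)⁻¹)) • y + (a ^ N)⁻¹ • (g ^ N) (C.pr x y v) := by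
    rw [h.pow_apply N v, smul_add, smul_add, smul_smul, smul_smul]
    have : (a ^ N)⁻¹ * (C.B v y / C.B x y * a ^ N) = C.B v y / C.B x y := by
      field_simp
    rw [this]
    abel
  have hpa : 1 ≤ |a| ^ N := one_le_pow₀ h.big.le
  have hpi : (|a| ^ N)⁻¹ ≤ 1 := inv_le_one_of_one_le₀ hpa
  have hpi0 : 0 ≤ (|a| ^ N)⁻¹ := by positivity
  have habs : |(a ^ N)⁻¹| = (|a| ^ N)⁻¹ := by rw [abs_inv, abs_pow]
  rw [h1]
  calc ‖((a ^ N)⁻¹ * (C.B v x / C.B x y * (a ^ N)⁻¹)) • y + (a ^ N)⁻¹ • (g ^ N) (C.pr x y v)‖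
      ≤ ‖((a ^ N)⁻¹ * (C.B v x / C.B x y * (a ^ N)⁻¹)) • y‖ +
        ‖(a ^ N)⁻¹ • (g ^ N) (C.pr x y v)‖ := norm_add_le _ _
    _ = (|a| ^ N)⁻¹ * (|C.B v x| / |C.B x y| * (|a| ^ N)⁻¹) * ‖y‖ +
        (|a| ^ N)⁻¹ * ‖(g ^ N) (C.pr x y v)‖ := by
        rw [norm_smul, norm_smul, Real.norm_eq_abs, Real.norm_eq_abs, abs_mul, abs_mul, abs_div,
          habs]
    _ ≤ (|a| ^ N)⁻¹ * (c' * ‖v‖ * ‖x‖ / |C.B x y| * 1) * ‖y‖ +
        (|a| ^ N)⁻¹ * (K * (M * ‖v‖)) := by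
        gcongr
        · exact hcb' v x
        · refine ((hb N _ ?_).1).trans ?_
          · exact C.mem_perp.2 ⟨h.pr_x v, h.pr_y v⟩
          · gcongr
            exact hM v
    _ = (c' * ‖x‖ / |C.B x y| * ‖y‖ + K * M) * (|a| ^ N)⁻¹ * ‖v‖ := by ring

lemma inv_pow_tendsto (h : C.HP g x y a) :
    Tendsto (fun N : ℕ => (|a| ^ N)⁻¹) atTop (𝓝 0) :=
  (tendsto_pow_atTop_atTop_of_one_lt h.big).inv_tendsto_atTop

lemma attract (h : C.HP g x y a) (v : V) :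
    Tendsto (fun N : ℕ => (a ^ N)⁻¹ • (g ^ N) v) atTop (𝓝 ((C.B v y / C.B x y) • x)) := by
  obtain ⟨K, hK, hb⟩ := h.rate
  rw [tendsto_iff_norm_sub_tendsto_zero]
  refine squeeze_zero (fun _ => norm_nonneg _) (fun N => hb N v) ?_
  have := ((h.inv_pow_tendsto).const_mul K).mul_const ‖v‖
  simpa using this

/-- Recurrence on the orthogonal complement of the two eigenvectors. -/
lemma recur (h : C.HP g x y a) (ε : ℝ) (hε : 0 < ε) (m : ℕ) :
    ∃ N : ℕ, m ≤ N ∧ ∀ u ∈ C.perp x y, ‖(g ^ N) u - u‖ ≤ ε * ‖u‖ := by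
  obtain ⟨K, hK, hb⟩ := h.bddpow
  obtain ⟨M, hM0, hM⟩ : ∃ M : ℝ, 0 < M ∧ ∀ v, ‖C.pr x y v‖ ≤ M * ‖v‖ := by
    refine ⟨‖(C.pr x y).toContinuousLinearMap‖ + 1, by positivity, fun v => ?_⟩
    have h1 := (C.pr x y).toContinuousLinearMap.le_opNorm v
    have h2 : 0 ≤ ‖v‖ := norm_nonneg v
    have h3 : ‖C.pr x y v‖ ≤ ‖(C.pr x y).toContinuousLinearMap‖ * ‖v‖ := h1
    nlinarith
  -- the operators `g^N ∘ pr`
  let A : ℕ → (V →L[ℝ] V) := fun N =>
    LinearMap.toContinuousLinearMap (((g ^ N : V ≃ₗ[ℝ] V) : V →ₗ[ℝ] V) ∘ₗ C.pr x y)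
  have hA : ∀ N v, A N v = (g ^ N) (C.pr x y v) := fun N v => rfl
  have hAb : ∀ N, A N ∈ Metric.closedBall (0 : V →L[ℝ] V) (K * M) := by
    intro N
    rw [mem_closedBall_zero_iff]
    refine ContinuousLinearMap.opNorm_le_bound _ (by positivity) (fun v => ?_)
    rw [hA]
    refine ((hb N _ (C.mem_perp.2 ⟨h.pr_x v, h.pr_y v⟩)).1).trans ?_
    rw [mul_assoc]
    gcongr
    exact hM v
  haveI : ProperSpace (V →L[ℝ] V) := FiniteDimensional.proper ℝ _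
  obtain ⟨T, -, φ, hφ, hT⟩ := (isCompact_closedBall (0 : V →L[ℝ] V) (K * M)).tendsto_subseq hAb
  have hcau := hT.cauchySeq
  rw [Metric.cauchySeq_iff] at hcau
  obtain ⟨n₀, hn₀⟩ := hcau (ε / K) (by positivity)
  have hpu : ∀ u ∈ C.perp x y, C.pr x y u = u := by
    intro u hu
    rw [C.mem_perp] at hu
    rw [C.pr_apply, hu.1, hu.2]
    simp
  refine ⟨φ (n₀ + φ n₀ + m) - φ n₀, ?_, fun u hu => ?_⟩
  · have := hφ.id_le (n₀ + φ n₀ + m)
    simp only [id] at this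
    omega
  · set n₁ := n₀ + φ n₀ + m with hn₁
    have hle : φ n₀ ≤ φ n₁ := hφ.monotone (by omega)
    have h1 := hn₀ n₁ (by omega) n₀ le_rfl
    simp only [Function.comp] at h1
    rw [dist_eq_norm] at h1
    have h2 : ‖(g ^ φ n₁) u - (g ^ φ n₀) u‖ ≤ ε / K * ‖u‖ := by
      have h3 := (A (φ n₁) - A (φ n₀)).le_opNorm u
      rw [ContinuousLinearMap.sub_apply, hA, hA, hpu u hu] at h3
      refine h3.trans ?_
      gcongr
    have h4 : (g ^ (φ n₁ - φ n₀)) u - u = ((g⁻¹) ^ φ n₀) ((g ^ φ n₁) u - (g ^ φ n₀) u) := by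
      rw [map_sub, ← LinearEquiv.mul_apply, ← LinearEquiv.mul_apply]
      have h5 : (g⁻¹) ^ φ n₀ * g ^ φ n₁ = g ^ (φ n₁ - φ n₀) := by
        rw [inv_pow]
        have : g ^ φ n₁ = g ^ φ n₀ * g ^ (φ n₁ - φ n₀) := by
          rw [← pow_add]
          congr 1
          omega
        rw [this, inv_mul_cancel_left]
      have h6 : (g⁻¹) ^ φ n₀ * g ^ φ n₀ = 1 := by rw [inv_pow, inv_mul_cancel]
      rw [h5, h6]
      rfl
    rw [h4]
    have h5 : (g ^ φ n₁) u - (g ^ φ n₀) u ∈ C.perp x y :=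
      Submodule.sub_mem _ (h.pow_perp _ hu) (h.pow_perp _ hu)
    refine ((hb (φ n₀) _ h5).2).trans ?_
    calc K * ‖(g ^ φ n₁) u - (g ^ φ n₀) u‖ ≤ K * (ε / K * ‖u‖) := by gcongr
      _ = ε * ‖u‖ := by field_simp

end fin

end HP

variable (C)

section fin
variable [FiniteDimensional ℝ V]

/-- Every eigenvector with an eigenvalue of modulus greater than `1` is the attracting eigenvector
of a hyperbolic element. -/
lemma HP_of_eig {g : V ≃ₗ[ℝ] V} (hg : g ∈ C.G) {x : V} (hx0 : x ≠ 0) {a : ℝ} (ha : 1 < |a|)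
    (hgx : g x = a • x) : ∃ y, C.HP g x y a := by
  have ha0 : a ≠ 0 := by
    rintro rfl
    simp at ha
    linarith
  let f : V →ₗ[ℝ] V := ((g⁻¹ : V ≃ₗ[ℝ] V) : V →ₗ[ℝ] V) - a • LinearMap.id
  have hf : ∀ v, f v = g⁻¹ v - a • v := fun v => rfl
  have hni : ¬ Function.Injective f := by
    intro hinj
    have hsur := LinearMap.injective_iff_surjective.1 hinj
    apply hx0
    apply C.nondeg
    intro z
    obtain ⟨w, rfl⟩ := hsur z
    rw [hf, map_sub, map_smul, ← C.inv_symm hg, hgx]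
    simp
  rw [← LinearMap.ker_eq_bot, Submodule.eq_bot_iff] at hni
  push Not at hni
  obtain ⟨y, hy, hy0⟩ := hni
  have hy' : g⁻¹ y = a • y := by
    have := LinearMap.mem_ker.1 hy
    rw [hf] at this
    exact sub_eq_zero.1 this
  refine ⟨y, hg, hx0, hy0, ha, hgx, ?_⟩
  have h1 : g (g⁻¹ y) = y := LinearEquiv.apply_symm_apply g y
  rw [hy', map_smul] at h1
  have h2 := congrArg (fun z => a⁻¹ • z) h1
  simp only [smul_smul, inv_mul_cancel₀ ha0, one_smul] at h2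
  exact h2

lemma exists_HP {x : V} (hx : x ∈ C.Xi) : ∃ g y a, C.HP g x y a := by
  obtain ⟨hx0, g, hg, a, ha, hgx⟩ := hx
  obtain ⟨y, hy⟩ := C.HP_of_eig hg hx0 ha hgx
  exact ⟨g, y, a, hy⟩

lemma Xi_light {x : V} (hx : x ∈ C.Xi) : C.B x x = 0 := by
  obtain ⟨g, y, a, h⟩ := C.exists_HP hx
  exact h.xx

lemma Xi_smul {x : V} (hx : x ∈ C.Xi) {t : ℝ} (ht : t ≠ 0) : t • x ∈ C.Xi := by
  obtain ⟨hx0, g, hg, a, ha, hgx⟩ := hx
  exact ⟨smul_ne_zero ht hx0, g, hg, a, ha, by rw [map_smul, hgx, smul_comm]⟩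

lemma Xi_map {x : V} (hx : x ∈ C.Xi) {k : V ≃ₗ[ℝ] V} (hk : k ∈ C.G) : k x ∈ C.Xi := by
  obtain ⟨hx0, g, hg, a, ha, hgx⟩ := hx
  refine ⟨by simpa using hx0, k * g * k⁻¹, C.G.mul_mem (C.G.mul_mem hk hg) (C.G.inv_mem hk), a,
    ha, ?_⟩
  rw [LinearEquiv.mul_apply, LinearEquiv.mul_apply]
  have : (k⁻¹ : V ≃ₗ[ℝ] V) (k x) = x := LinearEquiv.symm_apply_apply k x
  rw [this, hgx, map_smul]

/-- The limit cone. -/
def L : Set V := {x | x ≠ 0 ∧ x ∈ closure C.Xi}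

lemma Xi_sub_L : C.Xi ⊆ C.L := fun _ hx => ⟨hx.1, subset_closure hx⟩

lemma L_light {x : V} (hx : x ∈ C.L) : C.B x x = 0 := by
  have hcl : IsClosed {x : V | C.B x x = 0} :=
    isClosed_eq (C.cont' continuous_id continuous_id) continuous_const
  exact closure_minimal (fun z hz => C.Xi_light hz) hcl hx.2

lemma L_smul {x : V} (hx : x ∈ C.L) {t : ℝ} (ht : t ≠ 0) : t • x ∈ C.L := by
  refine ⟨smul_ne_zero ht hx.1, ?_⟩
  exact map_mem_closure (continuous_const_smul t) hx.2 (fun z hz => C.Xi_smul hz ht)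

lemma L_map {x : V} (hx : x ∈ C.L) {k : V ≃ₗ[ℝ] V} (hk : k ∈ C.G) : k x ∈ C.L := by
  refine ⟨by simpa using hx.1, ?_⟩
  exact map_mem_closure (LinearMap.continuous_of_finiteDimensional (k : V →ₗ[ℝ] V)) hx.2
    (fun z hz => C.Xi_map hz hk)

lemma L_near {x : V} (hx : x ∈ C.L) {U : Set V} (hU : U ∈ 𝓝 x) : ∃ z ∈ U, z ∈ C.Xi := by
  have := mem_closure_iff_nhds.1 hx.2 U hU
  obtain ⟨z, hz1, hz2⟩ := this
  exact ⟨z, hz1, hz2⟩

lemma L_dep {x y : V} (hx : x ∈ C.L) (hy : y ∈ C.L) (h : C.B x y = 0) :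
    ∃ t : ℝ, t ≠ 0 ∧ y = t • x := by
  obtain ⟨t, ht⟩ := C.light_dep (C.L_light hx) hx.1 (C.L_light hy).le (by rw [C.symm]; exact h)
  refine ⟨t, ?_, ht⟩
  rintro rfl
  exact hy.1 (by rw [ht, zero_smul])

end fin

end Ctx

end Pool.Agent.H14.LT
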