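import Pool.Agent.H14.LT.Full

set_option autoImplicit false

/-!
# Orbits accumulating at a given space-like vector
-/

namespace Pool.Agent.H14.LT

open Filter Topology

variable {V : Type*} [NormedAddCommGroup V] [NormedSpace ℝ V]

namespace Ctx

variable (C : Ctx V)

/-- The vectors of `V1` orthogonal to a hyperbolic pair. -/
def R : Set V := {v | v ∈ C.V1 ∧ ∃ g p q a, C.HP g p q a ∧ v ∈ C.perp p q}

section fin
variable [FiniteDimensional ℝ V]

/-- The vectors orthogonal to a limit vector form a closed set. -/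
lemma perp_closed : IsClosed {v : V | ∃ p ∈ C.L, C.B v p = 0} := by
  have : ProperSpace V := FiniteDimensional.proper ℝ V
  have hK : IsCompact (closure C.Xi ∩ Metric.sphere (0 : V) 1) :=
    (isCompact_sphere (0 : V) 1).inter_left isClosed_closure
  apply IsSeqClosed.isClosed
  intro v v0 hv hv0
  choose p hp hvp using hv
  have hp' : ∀ n, ‖p n‖⁻¹ • p n ∈ closure C.Xi ∩ Metric.sphere (0 : V) 1 := by
    intro n
    have h0 : ‖p n‖ ≠ 0 := norm_ne_zero_iff.2 (hp n).1
    exact ⟨(C.L_smul (hp n) (inv_ne_zero h0)).2, by simp [norm_smul, h0]⟩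
  obtain ⟨q, hq, φ, hφ, hlim⟩ := hK.tendsto_subseq hp'
  have hq0 : q ≠ 0 := by
    rintro rfl
    simpa using hq.2
  refine ⟨q, ⟨hq0, hq.1⟩, ?_⟩
  have h1 := C.tend (hv0.comp hφ.tendsto_atTop) hlim
  refine tendsto_nhds_unique h1 ?_
  refine tendsto_const_nhds.congr (fun n => ?_)
  simp only [Function.comp, map_smul, smul_eq_mul]
  rw [hvp, mul_zero]

/-- Baire category. -/
lemma baire_orbit [Countable C.G] {X : Set V} (hX : IsClosed X) (hXne : X.Nonempty) (x1 : V)
    (hS : ∀ U ∈ 𝓝 x1, ∀ v0 ∈ X, ∀ O ∈ 𝓝 v0, ∃ v ∈ O, v ∈ X ∧ ∃ k ∈ C.G, k v ∈ U ∨ -(k v) ∈ U)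
    (hT : ∀ v0 ∈ X, ∀ O ∈ 𝓝 v0, ∃ v ∈ O, v ∈ X ∧ v ≠ v0) :
    ∃ v : V, (v ∈ X ∨ -v ∈ X) ∧ ∀ ε : ℝ, 0 < ε → ∃ k ∈ C.G, ‖k v - x1‖ < ε ∧ k v ≠ x1 := by
  have : CompleteSpace V := FiniteDimensional.complete ℝ V
  have : CompleteSpace X := hX.completeSpace_coe
  have : Nonempty X := hXne.to_subtype
  have ck : ∀ k : V ≃ₗ[ℝ] V, Continuous k := fun k =>
    LinearMap.continuous_of_finiteDimensional (k : V →ₗ[ℝ] V)
  let f : ℕ ⊕ (C.G × Bool) → Set X := fun i => match i with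
    | Sum.inl n => {v : X | ∃ k ∈ C.G, ‖k v - x1‖ < 1 / ((n : ℝ) + 1) ∨
        ‖k v + x1‖ < 1 / ((n : ℝ) + 1)}
    | Sum.inr (k, true) => {v : X | (k : V ≃ₗ[ℝ] V) v ≠ x1}
    | Sum.inr (k, false) => {v : X | (k : V ≃ₗ[ℝ] V) v ≠ -x1}
  have ho : ∀ i, IsOpen (f i) := by
    rintro (n | ⟨k, b⟩)
    · have : f (Sum.inl n) = ⋃ k ∈ C.G, ({v : X | ‖k v - x1‖ < 1 / ((n : ℝ) + 1)} ∪
          {v : X | ‖k v + x1‖ < 1 / ((n : ℝ) + 1)}) := by
        ext v
        simp [f]
      rw [this]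
      refine isOpen_biUnion fun k _ => IsOpen.union ?_ ?_
      · exact isOpen_lt ((((ck k).comp continuous_subtype_val).sub continuous_const).norm)
          continuous_const
      · exact isOpen_lt ((((ck k).comp continuous_subtype_val).add continuous_const).norm)
          continuous_const
    · rcases b with _ | _
      · exact isOpen_ne_fun ((ck k).comp continuous_subtype_val) continuous_const
      · exact isOpen_ne_fun ((ck k).comp continuous_subtype_val) continuous_const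
  have hne : ∀ y : V, Dense {v : X | (v : V) ≠ y} := by
    intro y
    rw [dense_iff_inter_open]
    rintro W hW ⟨v0, hv0⟩
    obtain ⟨O, hO, rfl⟩ := isOpen_induced_iff.1 hW
    by_cases h : (v0 : V) = y
    · obtain ⟨v, hvO, hvX, hv⟩ := hT v0 v0.2 O (hO.mem_nhds hv0)
      exact ⟨⟨v, hvX⟩, hvO, by rw [← h]; exact hv⟩
    · exact ⟨v0, hv0, h⟩
  have hd : ∀ i, Dense (f i) := by
    rintro (n | ⟨k, b⟩)
    · rw [dense_iff_inter_open]
      rintro W hW ⟨v0, hv0⟩
      obtain ⟨O, hO, rfl⟩ := isOpen_induced_iff.1 hW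
      obtain ⟨v, hvO, hvX, k, hk, hkv⟩ := hS (Metric.ball x1 (1 / ((n : ℝ) + 1)))
        (Metric.ball_mem_nhds _ (by positivity)) v0 v0.2 O (hO.mem_nhds hv0)
      refine ⟨⟨v, hvX⟩, hvO, k, hk, ?_⟩
      rcases hkv with h | h
      · left
        rwa [Metric.mem_ball, dist_eq_norm] at h
      · right
        rw [Metric.mem_ball, dist_eq_norm] at h
        rw [← norm_neg, neg_add]
        rwa [sub_eq_add_neg] at h
    · have inj : ∀ z w : V, (k : V ≃ₗ[ℝ] V) z = w ↔ z = (k : V ≃ₗ[ℝ] V).symm w := fun z w =>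
        (LinearEquiv.eq_symm_apply _).symm
      rcases b with _ | _
      · have : f (Sum.inr (k, false)) = {v : X | (v : V) ≠ (k : V ≃ₗ[ℝ] V).symm (-x1)} := by
          ext v
          simp only [f, Set.mem_ofPred_eq, ne_eq, inj]
        rw [this]
        exact hne _
      · have : f (Sum.inr (k, true)) = {v : X | (v : V) ≠ (k : V ≃ₗ[ℝ] V).symm x1} := by
          ext v
          simp only [f, Set.mem_ofPred_eq, ne_eq, inj]
        rw [this]
        exact hne _
  obtain ⟨v, hv⟩ := (dense_iInter_of_isOpen ho hd).nonempty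
  rw [Set.mem_iInter] at hv
  have hT1 : ∀ k ∈ C.G, k (v : V) ≠ x1 := fun k hk => hv (Sum.inr (⟨k, hk⟩, true))
  have hT2 : ∀ k ∈ C.G, k (v : V) ≠ -x1 := fun k hk => hv (Sum.inr (⟨k, hk⟩, false))
  have hSn : ∀ n : ℕ, ∃ k ∈ C.G, ‖k (v : V) - x1‖ < 1 / ((n : ℝ) + 1) ∨
        ‖k (v : V) + x1‖ < 1 / ((n : ℝ) + 1) := fun n => hv (Sum.inl n)
  by_cases hA : ∀ n : ℕ, ∃ k ∈ C.G, ‖k (v : V) - x1‖ < 1 / ((n : ℝ) + 1)
  · refine ⟨v, Or.inl v.2, fun ε hε => ?_⟩
    obtain ⟨n, hn⟩ := exists_nat_one_div_lt hε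
    obtain ⟨k, hk, hkv⟩ := hA n
    exact ⟨k, hk, hkv.trans hn, hT1 k hk⟩
  · push Not at hA
    obtain ⟨m, hm⟩ := hA
    refine ⟨-v, Or.inr (by rw [neg_neg]; exact v.2), fun ε hε => ?_⟩
    obtain ⟨n, hn⟩ := exists_nat_one_div_lt hε
    obtain ⟨k, hk, hkv⟩ := hSn (n + m)
    have e1 : 1 / (((n + m : ℕ) : ℝ) + 1) ≤ 1 / ((n : ℝ) + 1) := by
      apply one_div_le_one_div_of_le (by positivity)
      push_cast
      have : (0 : ℝ) ≤ m := by positivity
      linarith
    have e2 : 1 / (((n + m : ℕ) : ℝ) + 1) ≤ 1 / ((m : ℝ) + 1) := by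
      apply one_div_le_one_div_of_le (by positivity)
      push_cast
      have : (0 : ℝ) ≤ n := by positivity
      linarith
    rcases hkv with h | h
    · exact absurd (h.trans_le e2) (not_lt.2 (hm k hk))
    · refine ⟨k, hk, ?_, ?_⟩
      · rw [map_neg, ← norm_neg, neg_sub, sub_neg_eq_add, add_comm]
        exact (h.trans_le e1).trans hn
      · rw [map_neg]
        intro h0
        exact hT2 k hk (by rw [← h0, neg_neg])

variable {C}

lemma not_both {p q q' : V} (hp : p ∈ C.L) (hq : q ∈ C.L) (h : C.B q q' ≠ 0)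
    (h0 : C.B q p = 0) : C.B q' p ≠ 0 := by
  obtain ⟨t, ht, rfl⟩ := C.L_dep hq hp h0
  rw [map_smul, smul_eq_mul, C.symm q' q]
  exact mul_ne_zero ht h

lemma HP.third {g : V ≃ₗ[ℝ] V} {x y : V} {a : ℝ} (h : C.HP g x y a) {u : V} (hu : u ∈ C.V1)
    (hup : u ∈ C.perp x y) (hu0 : u ≠ 0) : ∃ b ∈ C.L, C.B b x ≠ 0 ∧ C.B b y ≠ 0 := by
  by_contra hcon
  push Not at hcon
  apply hu0
  rw [← h.pr_self hup]
  have hprx : C.pr x y x = 0 := by
    rw [C.pr_apply, h.xx]
    simp [div_self h.xy]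
  have hpry : C.pr x y y = 0 := by
    rw [C.pr_apply, h.yy, C.symm y x]
    simp [div_self h.xy]
  have h1 : C.V1 ≤ LinearMap.ker (C.pr x y) := by
    refine Submodule.span_le.2 fun b hb => ?_
    rw [SetLike.mem_coe, LinearMap.mem_ker]
    have hbL := C.Xi_sub_L hb
    by_cases hbx : C.B b x = 0
    · obtain ⟨t, -, rfl⟩ := C.L_dep (C.Xi_sub_L h.xXi) hbL (by rw [C.symm]; exact hbx)
      rw [map_smul, hprx, smul_zero]
    · obtain ⟨t, -, rfl⟩ := C.L_dep (C.Xi_sub_L h.yXi) hbL (by rw [C.symm]; exact hcon b hbL hbx)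
      rw [map_smul, hpry, smul_zero]
  exact LinearMap.mem_ker.1 (h1 hu)

lemma HP.three {g : V ≃ₗ[ℝ] V} {x y : V} {a : ℝ} (h : C.HP g x y a) {b : V} (hb : b ∈ C.L)
    (hbx : C.B b x ≠ 0) (hby : C.B b y ≠ 0) :
    ∀ p ∈ C.L, ∀ r ∈ C.L, ∃ q ∈ C.L, C.B q p ≠ 0 ∧ C.B q r ≠ 0 := by
  intro p hp r hr
  have hxL := C.Xi_sub_L h.xXi
  have hyL := C.Xi_sub_L h.yXi
  have hxy := h.xy
  have hxb : C.B x b ≠ 0 := by rw [C.symm]; exact hbx
  have hyb : C.B y b ≠ 0 := by rw [C.symm]; exact hby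
  by_contra hcon
  push Not at hcon
  by_cases k1 : C.B x p = 0
  · have k2 := hcon y hyL (not_both hp hxL hxy k1)
    have k3 := hcon b hb (not_both hp hxL hxb k1)
    exact not_both hr hyL hyb k2 k3
  · have k2 := hcon x hxL k1
    have k3 : C.B y r ≠ 0 := not_both hr hxL hxy k2
    have k4 : C.B b r ≠ 0 := not_both hr hxL hxb k2
    have k5 : C.B y p = 0 := by
      by_contra h0
      exact k3 (hcon y hyL h0)
    have k6 : C.B b p = 0 := by
      by_contra h0
      exact k4 (hcon b hb h0)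
    exact not_both hp hyL hyb k5 k6

/-- The closed invariant set generated by a pair. -/
lemma inv_closure (p x : V) : C.Inv (closure {z : V × V | ∃ k ∈ C.G, ∃ s t σ : ℝ, s ≠ 0 ∧
    (σ = 1 ∨ σ = -1) ∧ z = (s • k p, σ • k x + t • k p)}) where
  closed := isClosed_closure
  map := by
    intro k hk z hz
    have hc : Continuous fun z : V × V => (k z.1, k z.2) := by
      have := LinearMap.continuous_of_finiteDimensional (k : V →ₗ[ℝ] V)
      exact (this.comp continuous_fst).prodMk (this.comp continuous_snd)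
    refine map_mem_closure (f := fun z : V × V => (k z.1, k z.2)) hc hz ?_
    rintro _ ⟨k', hk', s, t, σ, hs, hσ, rfl⟩
    refine ⟨k * k', C.G.mul_mem hk hk', s, t, σ, hs, hσ, ?_⟩
    simp
  scale := by
    intro s hs z hz
    have hc : Continuous fun z : V × V => (s • z.1, z.2) := by fun_prop
    refine map_mem_closure (f := fun z : V × V => (s • z.1, z.2)) hc hz ?_
    rintro _ ⟨k', hk', s', t, σ, hs', hσ, rfl⟩
    exact ⟨k', hk', s * s', t, σ, mul_ne_zero hs hs', hσ, by simp [smul_smul]⟩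
  shift := by
    intro t z hz
    have hc : Continuous fun z : V × V => (z.1, z.2 + t • z.1) := by fun_prop
    refine map_mem_closure (f := fun z : V × V => (z.1, z.2 + t • z.1)) hc hz ?_
    rintro _ ⟨k', hk', s', t', σ, hs', hσ, rfl⟩
    refine ⟨k', hk', s', t' + t * s', σ, hs', hσ, ?_⟩
    simp only [Prod.mk.injEq, true_and]
    module
  neg := by
    intro z hz
    have hc : Continuous fun z : V × V => (z.1, -z.2) := by fun_prop
    refine map_mem_closure (f := fun z : V × V => (z.1, -z.2)) hc hz ?_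
    rintro _ ⟨k', hk', s', t', σ, hs', hσ, rfl⟩
    refine ⟨k', hk', s', -t', -σ, hs', ?_, ?_⟩
    · rcases hσ with h | h
      · right; rw [h]
      · left; rw [h]; ring
    · simp only [Prod.mk.injEq, true_and]
      module

omit [FiniteDimensional ℝ V] in
lemma R_smul {v : V} (hv : v ∈ C.R) (t : ℝ) : t • v ∈ C.R := by
  obtain ⟨h1, g, p, q, a, h, h2⟩ := hv
  exact ⟨C.V1.smul_mem _ h1, g, p, q, a, h, (C.perp p q).smul_mem _ h2⟩

lemma R_sub_perp {v : V} (hv : v ∈ closure C.R) : ∃ p ∈ C.L, C.B v p = 0 := by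
  refine closure_minimal (s := C.R) (t := {v : V | ∃ p ∈ C.L, C.B v p = 0}) ?_ C.perp_closed hv
  rintro z ⟨-, g, p, q, a, h, hz⟩
  exact ⟨p, C.Xi_sub_L h.xXi, (C.mem_perp.1 hz).1⟩

lemma R_sub_V1 {v : V} (hv : v ∈ closure C.R) : v ∈ C.V1 := by
  refine closure_minimal (s := C.R) (t := (C.V1 : Set V)) ?_ C.V1.closed_of_finiteDimensional hv
  rintro z ⟨hz, -⟩
  exact hz

/-- The space-like case. -/
theorem orbit_pos [Countable C.G] (hmove : ∀ x ∈ C.Xi, ∃ k ∈ C.G, C.B (k x) x ≠ 0) {x1 : V}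
    (hx1 : x1 ∈ closure C.R) (hc : 0 < C.B x1 x1) :
    ∃ v ∈ C.V1, ∀ ε : ℝ, 0 < ε → ∃ k ∈ C.G, ‖k v - x1‖ < ε ∧ k v ≠ x1 := by
  set c0 := C.B x1 x1 with hc0
  have cB : Continuous fun v : V => C.B v v := C.cont' continuous_id continuous_id
  -- elements of `R` near `x1`
  have near : ∀ U ∈ 𝓝 x1, ∃ x' ∈ U, x' ∈ C.R ∧ C.B x' x' = c0 := by
    intro U hU
    let F : V → V := fun v => Real.sqrt (c0 / C.B v v) • v
    have hF : ContinuousAt F x1 := by
      have h1 : ContinuousAt (fun v : V => c0 / C.B v v) x1 :=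
        continuousAt_const.div cB.continuousAt hc.ne'
      exact (Real.continuous_sqrt.continuousAt.comp h1).smul continuousAt_id
    have hF1 : F x1 = x1 := by
      simp only [F]
      rw [← hc0, div_self hc.ne', Real.sqrt_one, one_smul]
    have h1 : ∀ᶠ v in 𝓝 x1, F v ∈ U := hF.eventually_mem (by rw [hF1]; exact hU)
    have h2 : ∀ᶠ v in 𝓝 x1, 0 < C.B v v := cB.continuousAt.eventually (lt_mem_nhds hc)
    obtain ⟨v, ⟨hv1, hv2⟩, hvR⟩ := mem_closure_iff_nhds.1 hx1 _ (h1.and h2)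
    refine ⟨F v, hv1, R_smul hvR _, ?_⟩
    simp only [F, map_smul, LinearMap.smul_apply, smul_eq_mul]
    rw [← mul_assoc, Real.mul_self_sqrt (by positivity), div_mul_cancel₀ _ hv2.ne']
  -- three directions
  obtain ⟨u, -, ⟨huV, g0, p0, q0, a0, h0, hup⟩, huc⟩ := near Set.univ Filter.univ_mem
  have hu0 : u ≠ 0 := by
    rintro rfl
    simp at huc
    linarith
  obtain ⟨b, hb, hbx, hby⟩ := h0.third huV hup hu0
  have h3 := h0.three hb hbx hby
  let X : Set V := {v | v ∈ C.V1 ∧ C.B v v = c0 ∧ ∃ p ∈ C.L, C.B v p = 0}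
  have hXc : IsClosed X := by
    have k1 : IsClosed {v : V | v ∈ C.V1} := C.V1.closed_of_finiteDimensional
    have k3 : IsClosed {v : V | C.B v v = c0} := isClosed_eq cB continuous_const
    exact k1.inter (k3.inter C.perp_closed)
  have hXne : X.Nonempty := ⟨x1, R_sub_V1 hx1, rfl, R_sub_perp hx1⟩
  obtain ⟨v, hv, hv'⟩ := C.baire_orbit hXc hXne x1 (by
    intro U hU v0 hv0 O hO
    obtain ⟨hv0V, hv0c, p', hp', hv0p⟩ := hv0
    obtain ⟨x', hx'U, ⟨hx'V, g, p, q, a, h, hx'p⟩, hx'c⟩ := near (interior U)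
      (interior_mem_nhds.2 hU)
    have hpL := C.Xi_sub_L h.xXi
    have hx'pp := (C.mem_perp.1 hx'p).1
    have hinv := inv_closure (C := C) p x'
    have hmem : (p, x') ∈ closure {z : V × V | ∃ k ∈ C.G, ∃ s t σ : ℝ, s ≠ 0 ∧
        (σ = 1 ∨ σ = -1) ∧ z = (s • k p, σ • k x' + t • k p)} := by
      refine subset_closure ⟨1, C.G.one_mem, 1, 0, 1, one_ne_zero, Or.inl rfl, ?_⟩
      simp
    have hfull := h.full hmove h3 hinv hpL hx'V hx'pp hx'c hmem hp' hv0V hv0p hv0c
    rw [mem_closure_iff_nhds] at hfull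
    obtain ⟨z, hzO, k, hk, s, t, σ, hs, hσ, rfl⟩ := hfull (Set.univ ×ˢ O)
      (prod_mem_nhds Filter.univ_mem hO)
    have hkp := C.L_map hpL hk
    have hσ2 : σ * σ = 1 := by
      rcases hσ with h | h <;> rw [h] <;> norm_num
    refine ⟨σ • k x' + t • k p, hzO.2, ⟨?_, ?_, k p, hkp, ?_⟩, ?_⟩
    · exact C.V1.add_mem (C.V1.smul_mem _ (C.V1_map hk hx'V)) (C.V1.smul_mem _ (C.L_V1 hkp))
    · simp only [map_add, map_smul, LinearMap.add_apply, LinearMap.smul_apply, smul_eq_mul]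
      rw [C.inv k hk, C.inv k hk, C.inv k hk, C.inv k hk, hx'c, C.symm p x', hx'pp, h.xx]
      have : σ * (σ * c0) = c0 := by rw [← mul_assoc, hσ2, one_mul]
      linarith
    · simp only [map_add, map_smul, LinearMap.add_apply, LinearMap.smul_apply, smul_eq_mul]
      rw [C.inv k hk, C.inv k hk, hx'pp, h.xx]
      ring
    · -- return near `x'`
      obtain ⟨N, hN, hrec⟩ := h.swap.recseq
      have hx'p' : x' ∈ C.perp q p := C.mem_perp.2 ⟨(C.mem_perp.1 hx'p).2, hx'pp⟩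
      have t1 := hrec x' hx'p'
      have t2 : Tendsto (fun n => (g⁻¹ ^ N n) p) atTop (𝓝 0) := by
        have t3 : Tendsto (fun n => (a ^ N n)⁻¹) atTop (𝓝 (0 : ℝ)) := by
          rw [tendsto_zero_iff_abs_tendsto_zero]
          have h5 := (h.inv_pow_tendsto).comp hN
          refine h5.congr (fun n => ?_)
          simp [Function.comp, abs_inv, abs_pow]
        have t4 := t3.smul_const p
        rw [zero_smul] at t4
        exact t4.congr (fun n => (h.swap.pow_y (N n)).symm)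
      have hback : ∀ n, (g⁻¹ ^ N n * k⁻¹ : V ≃ₗ[ℝ] V) (σ • k x' + t • k p) =
          σ • (g⁻¹ ^ N n) x' + t • (g⁻¹ ^ N n) p := by
        intro n
        have e1 : ∀ z, (k⁻¹ : V ≃ₗ[ℝ] V) (k z) = z := fun z => LinearEquiv.symm_apply_apply k z
        rw [LinearEquiv.mul_apply, map_add, map_smul, map_smul, e1, e1, map_add, map_smul, map_smul]
      have t5 : Tendsto (fun n => σ • ((g⁻¹ ^ N n * k⁻¹ : V ≃ₗ[ℝ] V) (σ • k x' + t • k p)))
          atTop (𝓝 x') := by
        have t6 := ((t1.const_smul σ).add (t2.const_smul t)).const_smul σ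
        rw [smul_zero, add_zero, smul_smul, hσ2, one_smul] at t6
        exact t6.congr (fun n => by rw [hback])
      obtain ⟨n, hn⟩ := (t5.eventually_mem (mem_interior_iff_mem_nhds.1 hx'U)).exists
      refine ⟨g⁻¹ ^ N n * k⁻¹, C.G.mul_mem (h.swap.powmem _) (C.G.inv_mem hk), ?_⟩
      rcases hσ with h | h
      · left
        rw [h, one_smul] at hn
        simpa [h] using hn
      · right
        rw [h, neg_smul, one_smul] at hn
        simpa [h] using hn) (by
    intro v0 hv0 O hO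
    obtain ⟨hv0V, hv0c, p', hp', hv0p⟩ := hv0
    have t1 : Tendsto (fun t : ℝ => v0 + t • p') (𝓝[≠] 0) (𝓝 v0) := by
      have : Continuous fun t : ℝ => v0 + t • p' := by fun_prop
      have h1 := (this.tendsto 0).mono_left (nhdsWithin_le_nhds (s := {0}ᶜ))
      simpa using h1
    obtain ⟨t, ht1, ht2⟩ := ((t1.eventually_mem hO).and self_mem_nhdsWithin).exists
    refine ⟨v0 + t • p', ht1, ⟨C.V1.add_mem hv0V (C.V1.smul_mem _ (C.L_V1 hp')), ?_, p', hp', ?_⟩,
      ?_⟩
    · simp only [map_add, map_smul, LinearMap.add_apply, LinearMap.smul_apply, smul_eq_mul]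
      rw [C.L_light hp', C.symm p' v0, hv0p, hv0c]
      ring
    · simp only [map_add, map_smul, LinearMap.add_apply, LinearMap.smul_apply, smul_eq_mul]
      rw [C.L_light hp', hv0p]
      ring
    · intro h
      have : t • p' = 0 := by simpa using h
      rcases smul_eq_zero.1 this with h | h
      · exact ht2 h
      · exact hp'.1 h)
  refine ⟨v, ?_, hv'⟩
  rcases hv with h | h
  · exact h.1
  · have := C.V1.neg_mem h.1
    rwa [neg_neg] at this

end fin

end Ctx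

end Pool.Agent.H14.LT
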